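import Pool.Agent.ORam.Region

/-!
# Many copies; the first blocks
-/

set_option autoImplicit false

namespace Pool.Agent.ORam

open SimpleGraph

variable {V : Type*} {W : Type*}

/-- processing a family of regions one after another -/
theorem process {G : SimpleGraph W} {𝓗 : SimpleGraph V → Prop} (R : ℕ → Set V)
    (hR : ∀ g g', g ≠ g' → Disjoint (R g) (R g')) (N : ℕ) (Q Q' : Hist V → ℕ → Prop)
    (hQ : ∀ g h h', Agree h h' (R g) → Q h g → Q h' g)
    (hQ' : ∀ g h h', Agree h h' (R g) → Q' h g → Q' h' g)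
    (hstep : ∀ g < N, ∀ h, (∀ v, dg h v ≤ 4) → Q h g →
      (∀ h', (∀ v, dg h' v ≤ 4) → Q' h' g → (∀ T, Disjoint T (R g) → Agree h h' T) →
        Won G 𝓗 h') → Won G 𝓗 h)
    {h : Hist V} (hok : ∀ v, dg h v ≤ 4) (h0 : ∀ g < N, Q h g)
    (hwin : ∀ h', (∀ v, dg h' v ≤ 4) → (∀ g < N, Q' h' g) → Won G 𝓗 h') : Won G 𝓗 h := by
  have key : ∀ k ≤ N, ∀ h : Hist V, (∀ v, dg h v ≤ 4) → (∀ g < N - k, Q' h g) →
      (∀ g, N - k ≤ g → g < N → Q h g) → Won G 𝓗 h := by
    intro k
    induction k with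
    | zero =>
      intro _ h hok h1 _
      exact hwin h hok (fun g hg => h1 g (by omega))
    | succ k ih =>
      intro hk h hok h1 h2
      refine hstep (N - (k + 1)) (by omega) h hok (h2 _ le_rfl (by omega)) ?_
      intro h' hok' hq hag
      refine ih (by omega) h' hok' ?_ ?_
      · intro g hg
        rcases Nat.lt_or_ge g (N - (k + 1)) with h3 | h3
        · exact hQ' g h h' (hag _ (hR _ _ (by omega))) (h1 g h3)
        · have h4 : g = N - (k + 1) := by omega
          rw [h4]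
          exact hq
      · intro g hg hgN
        exact hQ g h h' (hag _ (hR _ _ (by omega))) (h2 g (by omega) hgN)
  exact key N le_rfl h hok (fun g hg => by omega) (fun g _ hg => h0 g hg)

/-- there are `N` disjoint copies of the pattern `D` -/
def Many (h : Hist V) (c : Bool) {ι : Type} (D : ι → ι → ℕ) (N : ℕ) : Prop :=
  ∃ S : ℕ → Set V, (∀ i j, i ≠ j → Disjoint (S i) (S j)) ∧ ∀ i < N, HasCp h c (S i) D

theorem Many.le {h : Hist V} {c : Bool} {ι : Type} {D : ι → ι → ℕ} {N N' : ℕ}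
    (hm : Many h c D N) (hN : N' ≤ N) : Many h c D N' := by
  obtain ⟨S, h1, h2⟩ := hm
  exact ⟨S, h1, fun i hi => h2 i (lt_of_lt_of_le hi hN)⟩

/-- Builder wins from every position with sufficiently many copies of the pattern `D` of colour
`c`. -/
def Wn (V : Type*) (n : ℕ) (c : Bool) {ι : Type} (D : ι → ι → ℕ) : Prop :=
  ∃ N, ∀ h : Hist V, (∀ v, dg h v ≤ 4) → Many h c D N → Won (cycleGraph n) (MaxDeg 4) h

theorem Wn.pull {n : ℕ} {c : Bool} {ι κ : Type} {D : ι → ι → ℕ} (f : κ → ι)
    (hf : Function.Injective f) (hw : Wn V n c (fun i j => D (f i) (f j))) : Wn V n c D := by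
  obtain ⟨N, hN⟩ := hw
  refine ⟨N, fun h hok hm => hN h hok ?_⟩
  obtain ⟨S, h1, h2⟩ := hm
  exact ⟨S, h1, fun i hi => (h2 i hi).pull f hf⟩

theorem Wn.double {n : ℕ} (hn : 3 ≤ n) {c : Bool} {ι : Type} {D : ι → ι → ℕ} (r : ι)
    (hw : Wn V n c (dbl D r)) : Wn V n c D := by
  obtain ⟨N, hN⟩ := hw
  refine ⟨n * N, fun h hok hm => ?_⟩
  obtain ⟨S, h1, h2⟩ := hm
  have hidx : ∀ g g' i i', g ≠ g' → i < n → i' < n → n * g + i ≠ n * g' + i' := by
    intro g g' i i' hg hi hi' he
    apply hg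
    have e1 : (n * g + i) / n = g := by
      rw [Nat.mul_add_div (by omega), Nat.div_eq_of_lt hi, add_zero]
    have e2 : (n * g' + i') / n = g' := by
      rw [Nat.mul_add_div (by omega), Nat.div_eq_of_lt hi', add_zero]
    rw [← e1, ← e2, he]
  refine process (fun g => {x | ∃ i < n, x ∈ S (n * g + i)}) ?_ N
    (fun h g => ∀ i < n, HasCp h c (S (n * g + i)) D)
    (fun h g => HasCp h c {x | ∃ i < n, x ∈ S (n * g + i)} (dbl D r)) ?_ ?_ ?_ hok ?_ ?_
  · intro g g' hg
    rw [Set.disjoint_left]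
    rintro x ⟨i, hi, hx⟩ ⟨i', hi', hx'⟩
    exact Set.disjoint_left.1 (h1 _ _ (hidx g g' i i' hg hi hi')) hx hx'
  · intro g h h' ha hq i hi
    have ha' : Agree h h' (S (n * g + i)) :=
      ⟨fun e c ⟨v, hv, hve⟩ => ha.mem e c ⟨v, ⟨i, hi, hv⟩, hve⟩,
        fun v hv => ha.dg v ⟨i, hi, hv⟩⟩
    exact ha'.hasCp (hq i hi)
  · intro g h h' ha hq
    exact ha.hasCp hq
  · intro g _ h hok hq hcont
    refine double_move hn hok (fun i => S (n * g + i)) ?_ hq r ?_
    · intro i _ j _ hij
      exact h1 _ _ (by omega)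
    · intro h' hok' hcp hag
      refine hcont h' hok' hcp fun T hT => hag T fun i hi => ?_
      rw [Set.disjoint_left] at hT ⊢
      exact fun x hx hxS => hT hx ⟨i, hi, hxS⟩
  · intro g hg i hi
    refine h2 _ ?_
    calc n * g + i < n * g + n := by omega
      _ = n * (g + 1) := by ring
      _ ≤ n * N := Nat.mul_le_mul_left n hg
  · intro h' hok' hq
    refine hN h' hok' ⟨fun g => {x | ∃ i < n, x ∈ S (n * g + i)}, ?_, hq⟩
    intro g g' hg
    rw [Set.disjoint_left]
    rintro x ⟨i, hi, hx⟩ ⟨i', hi', hx'⟩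
    exact Set.disjoint_left.1 (h1 _ _ (hidx g g' i i' hg hi hi')) hx hx'

theorem Wn.finish {n : ℕ} (hn : 3 ≤ n) {c : Bool} {ι : Type} {D : ι → ι → ℕ} (f : ℕ → ι)
    (hinj : ∀ i < n, ∀ j < n, f i = f j → i = j)
    (hf : ∀ i < n, D (f i) (f ((i + 1) % n)) = n - 1) : Wn V n c D := by
  refine ⟨1, fun h hok hm => ?_⟩
  obtain ⟨S, -, h2⟩ := hm
  exact finish_move hn hok (h2 0 Nat.one_pos) f hinj hf

/-! ### The first blocks -/

/-- the pattern of a path with three vertices -/
def P3 (i j : Fin 3) : ℕ := (i.val - j.val) + (j.val - i.val)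

theorem hasCp_P3 {h : Hist V} {c : Bool} {F : Set V} (hF : Closed h F) {x y z : V}
    (hx : x ∈ F) (hy : y ∈ F) (hz : z ∈ F) (hxy : x ≠ y) (hyz : y ≠ z) (hxz : x ≠ z)
    (dx : dg h x ≤ 2) (dy : dg h y ≤ 2) (dz : dg h z ≤ 2) (exy : (s(x, y), c) ∈ h)
    (eyz : (s(y, z), c) ∈ h) (hnp : ¬ Pres h s(x, z)) : HasCp h c F P3 := by
  have p1 : ∀ a b : V, a ∈ F → b ∈ F → a ≠ b → (s(a, b), c) ∈ h → Pth h c F 1 a b := by
    intro a b ha hb hab he
    refine ⟨fun i => if i = 0 then a else b, by simp, by simp, ?_, ?_, ?_⟩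
    · intro i _
      dsimp only
      split_ifs
      · exact ha
      · exact hb
    · intro i hi j hj hij
      rcases Nat.le_one_iff_eq_zero_or_eq_one.1 hi with rfl | rfl <;>
        rcases Nat.le_one_iff_eq_zero_or_eq_one.1 hj with rfl | rfl
      · rfl
      · exact absurd hij (by simpa using hab)
      · exact absurd hij (by simpa using hab.symm)
      · rfl
    · intro i hi
      obtain rfl : i = 0 := by omega
      simpa using he
  have p2 : ∀ a b d : V, a ∈ F → b ∈ F → d ∈ F → a ≠ b → b ≠ d → a ≠ d → (s(a, b), c) ∈ h →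
      (s(b, d), c) ∈ h → Pth h c F 2 a d := by
    intro a b d ha hb hd hab hbd had e1 e2
    refine ⟨fun i => if i = 0 then a else if i = 1 then b else d, by simp, by simp, ?_, ?_, ?_⟩
    · intro i _
      dsimp only
      split_ifs
      · exact ha
      · exact hb
      · exact hd
    · intro i hi j hj hij
      have hi' : i = 0 ∨ i = 1 ∨ i = 2 := by omega
      have hj' : j = 0 ∨ j = 1 ∨ j = 2 := by omega
      rcases hi' with rfl | rfl | rfl <;> rcases hj' with rfl | rfl | rfl <;>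
        first
          | rfl
          | (exfalso
             simp only [if_true, if_false, one_ne_zero, OfNat.ofNat_ne_zero,
               OfNat.ofNat_ne_one] at hij
             first
               | exact hab hij
               | exact hab hij.symm
               | exact hbd hij
               | exact hbd hij.symm
               | exact had hij
               | exact had hij.symm)
    · intro i hi
      have hi' : i = 0 ∨ i = 1 := by omega
      rcases hi' with rfl | rfl
      · simpa using e1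
      · simpa using e2
  have eyx : (s(y, x), c) ∈ h := by rwa [Sym2.eq_swap]
  have ezy : (s(z, y), c) ∈ h := by rwa [Sym2.eq_swap]
  refine ⟨![x, y, z], ?_, ?_, ?_, ?_, ?_, hF⟩
  · intro i
    fin_cases i
    · exact hx
    · exact hy
    · exact hz
  · intro i j hij
    fin_cases i <;> fin_cases j <;>
      first
        | rfl
        | (exfalso
           first
             | exact hxy hij
             | exact hxy hij.symm
             | exact hyz hij
             | exact hyz hij.symm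
             | exact hxz hij
             | exact hxz hij.symm)
  · intro i
    fin_cases i
    · exact dx
    · exact dy
    · exact dz
  · intro i j hij
    fin_cases i <;> fin_cases j
    · exact absurd rfl hij
    · exact p1 x y hx hy hxy exy
    · exact p2 x y z hx hy hz hxy hyz hxz exy eyz
    · exact p1 y x hy hx hxy.symm eyx
    · exact absurd rfl hij
    · exact p1 y z hy hz hyz eyz
    · exact p2 z y x hz hy hx hyz.symm hxy.symm hxz.symm ezy eyx
    · exact p1 z y hz hy hyz.symm ezy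
    · exact absurd rfl hij
  · intro i j hij hp
    fin_cases i <;> fin_cases j <;>
      first
        | rfl
        | exact absurd rfl hij
        | exact absurd hp hnp
        | exact absurd hp.symm hnp

theorem Closed.cons {h : Hist V} {F : Set V} (hF : Closed h F) {x y : V} (hx : x ∈ F)
    (hy : y ∈ F) (c : Bool) : Closed ((s(x, y), c) :: h) F := by
  rintro a ha b ⟨c', hc'⟩
  rcases List.mem_cons.1 hc' with h1 | h1
  · have h2 : s(a, b) = s(x, y) := congrArg Prod.fst h1
    rw [Sym2.eq_iff] at h2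
    rcases h2 with ⟨-, rfl⟩ | ⟨-, rfl⟩
    · exact hy
    · exact hx
  · exact hF a ha b ⟨c', h1⟩

theorem agree_cons {h : Hist V} {T : Set V} {x y : V} (hx : x ∉ T) (hy : y ∉ T) (c : Bool) :
    Agree h ((s(x, y), c) :: h) T := by
  refine ⟨?_, ?_⟩
  · rintro e c' ⟨v, hv, hve⟩
    constructor
    · exact fun he => List.mem_cons_of_mem _ he
    · intro he
      rcases List.mem_cons.1 he with h1 | h1
      · exfalso
        have h2 : e = s(x, y) := congrArg Prod.fst h1
        rw [h2, Sym2.mem_iff] at hve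
        rcases hve with rfl | rfl
        · exact hx hv
        · exact hy hv
      · exact h1
  · intro v hv
    rw [dg_cons_of_notMem]
    rw [Sym2.mem_iff]
    rintro (rfl | rfl)
    · exact hx hv
    · exact hy hv

theorem Agree.trans {h h' h'' : Hist V} {T : Set V} (h1 : Agree h h' T) (h2 : Agree h' h'' T) :
    Agree h h'' T :=
  ⟨fun e c he => (h1.mem e c he).trans (h2.mem e c he), fun v hv => (h1.dg v hv).trans (h2.dg v hv)⟩

theorem Agree.refl (h : Hist V) (T : Set V) : Agree h h T := ⟨fun _ _ _ => Iff.rfl, fun _ _ => rfl⟩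

/-- one move of Builder -/
theorem draw {G : SimpleGraph W} {h : Hist V} (hok : ∀ v, dg h v ≤ 4) {x y : V} (hxy : x ≠ y)
    (hnp : ¬ Pres h s(x, y)) (dx : dg h x ≤ 3) (dy : dg h y ≤ 3)
    (hw : ∀ c, (∀ v, dg ((s(x, y), c) :: h) v ≤ 4) → Won G (MaxDeg 4) ((s(x, y), c) :: h)) :
    Won G (MaxDeg 4) h := by
  classical
  have hok' : ∀ c, ∀ v, dg ((s(x, y), c) :: h) v ≤ 4 := by
    intro c v
    rw [dg_cons]
    split_ifs with hv
    · rw [Sym2.mem_iff] at hv
      rcases hv with rfl | rfl <;> omega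
    · exact hok v
  exact Won.step (legal_of hxy hnp (hok' true)) fun c => hw c (hok' c)

theorem two_le_dg {h : Hist V} {v : V} {x y : Sym2 V × Bool} (hx : x ∈ h) (hy : y ∈ h)
    (hxy : x ≠ y) (hvx : v ∈ x.1) (hvy : v ∈ y.1) : 2 ≤ dg h v := by
  classical
  unfold dg
  have h1 : x ∈ h.filter fun x => decide (v ∈ x.1) := List.mem_filter.2 ⟨hx, by simpa using hvx⟩
  have h2 : y ∈ h.filter fun x => decide (v ∈ x.1) := List.mem_filter.2 ⟨hy, by simpa using hvy⟩
  by_contra hlt
  push Not at hlt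
  rcases Nat.lt_succ_iff_lt_or_eq.1 hlt with h3 | h3
  · have := List.eq_nil_of_length_eq_zero (Nat.lt_one_iff.1 h3)
    rw [this] at h1
    exact absurd h1 List.not_mem_nil
  · obtain ⟨z, hz⟩ := List.length_eq_one_iff.1 h3
    rw [hz, List.mem_singleton] at h1 h2
    exact hxy (h1.trans h2.symm)

theorem dg_pos {h : Hist V} {v w : V} (hp : Pres h s(v, w)) : 1 ≤ dg h v := by
  classical
  obtain ⟨c, hc⟩ := hp
  unfold dg
  exact List.length_pos_of_mem (List.mem_filter.2 ⟨hc, by simp⟩)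

/-- an isolated presented edge of colour `b` -/
structure Iso1 (h : Hist V) (b : Bool) (x y : V) : Prop where
  mem : (s(x, y), b) ∈ h
  dx : dg h x = 1
  dy : dg h y = 1

theorem Iso1.ne {h : Hist V} {b : Bool} {x y z : V} (hi : Iso1 h b x y) (hz : z ≠ x) :
    ¬ Pres h s(y, z) := by
  rintro ⟨c, hc⟩
  have h1 : 2 ≤ dg h y := by
    refine two_le_dg hi.mem hc ?_ (Sym2.mem_mk_right _ _) (Sym2.mem_mk_left _ _)
    intro h2
    have h3 : s(x, y) = s(y, z) := congrArg Prod.fst h2
    rw [Sym2.eq_iff] at h3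
    rcases h3 with ⟨rfl, h4⟩ | ⟨h4, -⟩
    · exact hz h4.symm
    · exact hz h4.symm
  have := hi.dy
  omega

theorem Iso1.cons {h : Hist V} {b : Bool} {x y : V} (hi : Iso1 h b x y) {e : Sym2 V}
    (hx : x ∉ e) (hy : y ∉ e) (c : Bool) : Iso1 ((e, c) :: h) b x y :=
  ⟨List.mem_cons_of_mem _ hi.mem, by rw [dg_cons_of_notMem hx, hi.dx],
    by rw [dg_cons_of_notMem hy, hi.dy]⟩

theorem Iso1.new {h : Hist V} {x y : V} (hx : dg h x = 0) (hy : dg h y = 0) (b : Bool) :
    Iso1 ((s(x, y), b) :: h) b x y :=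
  ⟨List.mem_cons_self, by rw [dg_cons_of_mem (Sym2.mem_mk_left _ _), hx],
    by rw [dg_cons_of_mem (Sym2.mem_mk_right _ _), hy]⟩

/-- from two isolated edges of the same colour and a new vertex Builder gets a block -/
theorem block_two {G : SimpleGraph W} {h : Hist V} (hok : ∀ v, dg h v ≤ 4) {F : Set V}
    (hF : Closed h F) {y0 y v0 v1 w : V} {b : Bool} (i1 : Iso1 h b y0 y) (i2 : Iso1 h b v0 v1)
    (hw : dg h w = 0) (m1 : y0 ∈ F) (m2 : y ∈ F) (m3 : v0 ∈ F) (m4 : v1 ∈ F) (m5 : w ∈ F)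
    (n12 : y0 ≠ y) (n14 : y0 ≠ v1) (n15 : y0 ≠ w) (n24 : y ≠ v1)
    (n25 : y ≠ w) (n34 : v0 ≠ v1) (n35 : v0 ≠ w) (n45 : v1 ≠ w)
    (hwin : ∀ h', (∀ v, dg h' v ≤ 4) → (∃ c, HasCp h' c F P3) →
      (∀ T, Disjoint T F → Agree h h' T) → Won G (MaxDeg 4) h') : Won G (MaxDeg 4) h := by
  classical
  have hwp : ∀ z, ¬ Pres h s(z, w) := fun z hp => by
    have := dg_pos hp.symm
    omega
  refine draw hok n45 (hwp v1) (by rw [i2.dy]; norm_num) (by rw [hw]; norm_num) ?_
  intro c1 hok1
  have hcl1 := hF.cons m4 m5 c1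
  have hag1 : ∀ T, Disjoint T F → Agree h ((s(v1, w), c1) :: h) T := fun T hT =>
    agree_cons (Set.disjoint_right.1 hT m4) (Set.disjoint_right.1 hT m5) c1
  by_cases hc1 : c1 = b
  · subst hc1
    refine hwin _ hok1 ⟨c1, hasCp_P3 hcl1 m3 m4 m5 n34 n45 n35 ?_ ?_ ?_ ?_ ?_ ?_⟩ hag1
    · rw [dg_cons_of_notMem (by rw [Sym2.mem_iff]; rintro (h1 | h1) <;> [exact n34 h1; exact n35 h1]),
        i2.dx]
      norm_num
    · rw [dg_cons_of_mem (Sym2.mem_mk_left _ _), i2.dy]
    · rw [dg_cons_of_mem (Sym2.mem_mk_right _ _), hw]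
      norm_num
    · exact List.mem_cons_of_mem _ i2.mem
    · exact List.mem_cons_self
    · rintro ⟨c, hc⟩
      rcases List.mem_cons.1 hc with h1 | h1
      · have h2 : s(v0, w) = s(v1, w) := congrArg Prod.fst h1
        rw [Sym2.eq_iff] at h2
        rcases h2 with ⟨h3, -⟩ | ⟨h3, -⟩
        · exact n34 h3
        · exact n35 h3
      · exact hwp _ ⟨c, h1⟩
  · have hnp2 : ¬ Pres ((s(v1, w), c1) :: h) s(y, w) := by
      rintro ⟨c, hc⟩
      rcases List.mem_cons.1 hc with h1 | h1
      · have h2 : s(y, w) = s(v1, w) := congrArg Prod.fst h1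
        rw [Sym2.eq_iff] at h2
        rcases h2 with ⟨h3, -⟩ | ⟨h3, -⟩
        · exact n24 h3
        · exact n25 h3
      · exact hwp _ ⟨c, h1⟩
    have dy : dg ((s(v1, w), c1) :: h) y = 1 := by
      rw [dg_cons_of_notMem (by rw [Sym2.mem_iff]; rintro (h1 | h1) <;> [exact n24 h1; exact n25 h1]),
        i1.dy]
    have dy0 : dg ((s(v1, w), c1) :: h) y0 = 1 := by
      rw [dg_cons_of_notMem (by rw [Sym2.mem_iff]; rintro (h1 | h1) <;> [exact n14 h1; exact n15 h1]),
        i1.dx]
    have dw : dg ((s(v1, w), c1) :: h) w = 1 := by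
      rw [dg_cons_of_mem (Sym2.mem_mk_right _ _), hw]
    have dv1 : dg ((s(v1, w), c1) :: h) v1 = 2 := by
      rw [dg_cons_of_mem (Sym2.mem_mk_left _ _), i2.dy]
    refine draw hok1 n25 hnp2 (by rw [dy]; norm_num) (by rw [dw]; norm_num) ?_
    intro c2 hok2
    have hcl2 := hcl1.cons m2 m5 c2
    have hag2 : ∀ T, Disjoint T F → Agree h ((s(y, w), c2) :: (s(v1, w), c1) :: h) T :=
      fun T hT => (hag1 T hT).trans
        (agree_cons (Set.disjoint_right.1 hT m2) (Set.disjoint_right.1 hT m5) c2)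
    have d2w : dg ((s(y, w), c2) :: (s(v1, w), c1) :: h) w ≤ 2 := by
      rw [dg_cons_of_mem (Sym2.mem_mk_right _ _), dw]
    have d2y : dg ((s(y, w), c2) :: (s(v1, w), c1) :: h) y ≤ 2 := by
      rw [dg_cons_of_mem (Sym2.mem_mk_left _ _), dy]
    by_cases hc2 : c2 = b
    · subst hc2
      refine hwin _ hok2 ⟨c2, hasCp_P3 hcl2 m1 m2 m5 n12 n25 n15 ?_ d2y d2w ?_ ?_ ?_⟩ hag2
      · rw [dg_cons_of_notMem (by rw [Sym2.mem_iff]; rintro (h1 | h1) <;> [exact n12 h1; exact n15 h1]),
          dy0]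
        norm_num
      · exact List.mem_cons_of_mem _ (List.mem_cons_of_mem _ i1.mem)
      · exact List.mem_cons_self
      · rintro ⟨c, hc⟩
        rcases List.mem_cons.1 hc with h1 | h1
        · have h2 : s(y0, w) = s(y, w) := congrArg Prod.fst h1
          rw [Sym2.eq_iff] at h2
          rcases h2 with ⟨h3, -⟩ | ⟨h3, -⟩
          · exact n12 h3
          · exact n15 h3
        · rcases List.mem_cons.1 h1 with h1 | h1
          · have h2 : s(y0, w) = s(v1, w) := congrArg Prod.fst h1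
            rw [Sym2.eq_iff] at h2
            rcases h2 with ⟨h3, -⟩ | ⟨h3, -⟩
            · exact n14 h3
            · exact n15 h3
          · exact hwp _ ⟨c, h1⟩
    · have hc12 : c1 = c2 := by
        cases b <;> cases c1 <;> cases c2 <;> simp_all
      subst hc12
      refine hwin _ hok2 ⟨c1, hasCp_P3 hcl2 m2 m5 m4 n25 n45.symm n24 d2y d2w ?_ ?_ ?_ ?_⟩ hag2
      · rw [dg_cons_of_notMem (by
          rw [Sym2.mem_iff]; rintro (h1 | h1) <;> [exact n24 h1.symm; exact n45 h1]), dv1]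
      · exact List.mem_cons_self
      · refine List.mem_cons_of_mem _ ?_
        rw [Sym2.eq_swap]
        exact List.mem_cons_self
      · rintro ⟨c, hc⟩
        rcases List.mem_cons.1 hc with h1 | h1
        · have h2 : s(y, v1) = s(y, w) := congrArg Prod.fst h1
          rw [Sym2.eq_iff] at h2
          rcases h2 with ⟨-, h3⟩ | ⟨h3, -⟩
          · exact n45 h3
          · exact n25 h3
        · rcases List.mem_cons.1 h1 with h1 | h1
          · have h2 : s(y, v1) = s(v1, w) := congrArg Prod.fst h1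
            rw [Sym2.eq_iff] at h2
            rcases h2 with ⟨h3, -⟩ | ⟨h3, -⟩
            · exact n24 h3
            · exact n25 h3
          · exact i1.ne n14.symm ⟨c, h1⟩

end Pool.Agent.ORam
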