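import Pool.Agent.ORam.Start

/-!
# Certificates: explicit sequences of doublings

The vertices of the `m`-fold doubled path with three vertices are coded by the numbers below
`3 * 2 ^ m`; the last doubling is the head of the list.
-/

set_option autoImplicit false

namespace Pool.Agent.ORam

open SimpleGraph

variable {V : Type*}

/-- the distance in the tree given by a list of doublings -/
def dst : List ℕ → ℕ → ℕ → ℕ
  | [], x, y => (x - y) + (y - x)
  | a :: L, x, y =>
    bif Nat.blt x (3 * 2 ^ L.length) then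
      bif Nat.blt y (3 * 2 ^ L.length) then dst L x y
      else dst L x a + 1 + dst L a (y - 3 * 2 ^ L.length)
    else
      bif Nat.blt y (3 * 2 ^ L.length) then dst L (x - 3 * 2 ^ L.length) a + 1 + dst L a y
      else dst L (x - 3 * 2 ^ L.length) (y - 3 * 2 ^ L.length)

/-- the vertex below modulo the last doubling -/
def low (L : List ℕ) (x : ℕ) : ℕ :=
  bif Nat.blt x (3 * 2 ^ L.length) then x else x - 3 * 2 ^ L.length

/-- the vertex `x` is a vertex of the tree and has not been used -/
def unu : List ℕ → ℕ → Bool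
  | [], x => Nat.blt x 3
  | a :: L, x => !(Nat.beq (low L x) a) && unu L (low L x)

/-- all doublings take place at unused vertices -/
def vld : List ℕ → Bool
  | [] => true
  | a :: L => unu L a && vld L

/-- the pattern of the unused vertices -/
def cpat (L : List ℕ) (x y : {x : ℕ // unu L x = true}) : ℕ := dst L x.1 y.1

theorem Wn.cert_step {n : ℕ} (hn : 3 ≤ n) {c : Bool} {a : ℕ} {L : List ℕ} (ha : unu L a = true)
    (hw : Wn V n c (cpat (a :: L))) : Wn V n c (cpat L) := by
  refine Wn.double hn ⟨a, ha⟩ ?_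
  have hu : ∀ x : {x : ℕ // unu (a :: L) x = true}, low L x.1 ≠ a ∧ unu L (low L x.1) = true := by
    rintro ⟨x, hx⟩
    unfold unu at hx
    rw [Bool.and_eq_true, Bool.not_eq_true'] at hx
    refine ⟨?_, hx.2⟩
    intro h
    have h1 := hx.1
    rw [show Nat.beq (low L x) a = true from by rw [h]; exact Nat.beq_refl a] at h1
    exact Bool.noConfusion h1
  let f : {x : ℕ // unu (a :: L) x = true} →
      {x : {x : ℕ // unu L x = true} // x ≠ ⟨a, ha⟩} × Bool :=
    fun x => (⟨⟨low L x.1, (hu x).2⟩, fun h => (hu x).1 (congrArg Subtype.val h)⟩,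
      Nat.blt x.1 (3 * 2 ^ L.length))
  refine Wn.pull f ?_ ?_
  · intro x y hxy
    have h1 : low L x.1 = low L y.1 := congrArg (fun p => p.1.1.1) hxy
    have h2 : Nat.blt x.1 (3 * 2 ^ L.length) = Nat.blt y.1 (3 * 2 ^ L.length) :=
      congrArg Prod.snd hxy
    apply Subtype.ext
    unfold low at h1
    rw [← h2] at h1
    rcases hb : Nat.blt x.1 (3 * 2 ^ L.length) with _ | _
    · rw [hb] at h1 h2
      rw [cond_false, cond_false] at h1
      have h3 : ¬ x.1 < 3 * 2 ^ L.length := by
        intro h
        rw [← Nat.blt_eq, hb] at h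
        exact Bool.noConfusion h
      have h4 : ¬ y.1 < 3 * 2 ^ L.length := by
        intro h
        rw [← Nat.blt_eq, ← h2] at h
        exact Bool.noConfusion h
      omega
    · rw [hb] at h1
      rw [cond_true, cond_true] at h1
      exact h1
  · have hD : (fun i j => dbl (cpat L) ⟨a, ha⟩ (f i) (f j)) = cpat (a :: L) := by
      funext x y
      show (if Nat.blt x.1 (3 * 2 ^ L.length) = Nat.blt y.1 (3 * 2 ^ L.length) then
        dst L (low L x.1) (low L y.1) else dst L (low L x.1) a + 1 + dst L a (low L y.1)) =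
        dst (a :: L) x.1 y.1
      unfold low
      rw [dst]
      rcases Nat.blt x.1 (3 * 2 ^ L.length) with _ | _ <;>
        rcases Nat.blt y.1 (3 * 2 ^ L.length) with _ | _ <;> simp
    rw [hD]
    exact hw

theorem Wn.cert {n : ℕ} (hn : 3 ≤ n) {c : Bool} (L : List ℕ) (hL : vld L = true)
    (hw : Wn V n c (cpat L)) : Wn V n c P3 := by
  induction L with
  | nil =>
    let f : {x : ℕ // unu [] x = true} → Fin 3 := fun x => ⟨x.1, by
      have := x.2
      unfold unu at this
      rwa [Nat.blt_eq] at this⟩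
    refine Wn.pull f (fun x y hxy => Subtype.ext (congrArg Fin.val hxy)) ?_
    exact hw
  | cons a L ih =>
    unfold vld at hL
    rw [Bool.and_eq_true] at hL
    exact ih hL.2 (Wn.cert_step hn hL.1 hw)

/-- the check of a closed sequence -/
def chk (n : ℕ) (L : List ℕ) (cyc : List ℕ) : Bool :=
  vld L && (Nat.beq cyc.length n && (decide cyc.Nodup && (cyc.all (unu L) &&
    ((List.range n).all fun i =>
      Nat.beq (dst L (cyc.getD i 0) (cyc.getD ((i + 1) % n) 0)) (n - 1)))))

theorem Wn.chk {n : ℕ} (hn : 3 ≤ n) {c : Bool} (L cyc : List ℕ) (h : ORam.chk n L cyc = true) :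
    Wn V n c P3 := by
  unfold ORam.chk at h
  rw [Bool.and_eq_true, Bool.and_eq_true, Bool.and_eq_true, Bool.and_eq_true] at h
  obtain ⟨h1, h2, h3, h4, h5⟩ := h
  have h2' : cyc.length = n := Nat.eq_of_beq_eq_true h2
  have h3' : cyc.Nodup := of_decide_eq_true h3
  rw [List.all_eq_true] at h4 h5
  refine Wn.cert hn L h1 ?_
  have hmem : ∀ i, i < n → unu L (cyc.getD i 0) = true := by
    intro i hi
    have hi' : i < cyc.length := by omega
    rw [List.getD_eq_getElem _ _ hi']
    exact h4 _ (List.getElem_mem hi')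
  have h0 : 0 < n := by omega
  let f : ℕ → {x : ℕ // unu L x = true} := fun i => ⟨cyc.getD (i % n) 0, hmem _ (Nat.mod_lt _ h0)⟩
  refine Wn.finish hn f ?_ ?_
  · intro i hi j hj hij
    have h6 : cyc.getD (i % n) 0 = cyc.getD (j % n) 0 := congrArg Subtype.val hij
    rw [Nat.mod_eq_of_lt hi, Nat.mod_eq_of_lt hj] at h6
    rw [List.getD_eq_getElem _ _ (by omega : i < cyc.length),
      List.getD_eq_getElem _ _ (by omega : j < cyc.length)] at h6
    exact (List.Nodup.getElem_inj_iff h3').1 h6
  · intro i hi
    show dst L (cyc.getD (i % n) 0) (cyc.getD ((i + 1) % n % n) 0) = n - 1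
    rw [Nat.mod_eq_of_lt hi, Nat.mod_mod]
    exact Nat.eq_of_beq_eq_true (h5 i (List.mem_range.2 hi))

end Pool.Agent.ORam
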