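import Mathlib

/-!
# The builder/painter game

Definitions of the game, positions, and the reduction from strategies to an inductive notion of a
won position.
-/

set_option autoImplicit false

namespace Pool.Agent.ORam

/-- A history of the game on the vertex set `V`: the presented edges with their colours, the last
one first. -/
abbrev Hist (V : Type*) := List (Sym2 V × Bool)

variable {V : Type*} {W : Type*}

/-- The graph of all presented edges. -/
def presented (h : Hist V) : SimpleGraph V := SimpleGraph.fromEdgeSet {e | ∃ c, (e, c) ∈ h}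

/-- The graph of the presented edges of colour `c`. -/
def coloured (h : Hist V) (c : Bool) : SimpleGraph V := SimpleGraph.fromEdgeSet {e | (e, c) ∈ h}

/-- Builder may present the edge `e` after the history `h`: `e` is an edge (not a loop), it has not
been presented before, and the graph of the presented edges, with `e`, is in the class `𝓗`. -/
def Legal (𝓗 : SimpleGraph V → Prop) (h : Hist V) (e : Sym2 V) : Prop :=
  ¬ e.IsDiag ∧ (∀ c, (e, c) ∉ h) ∧ 𝓗 (presented ((e, true) :: h))

/-- The history after `k` rounds, if Builder uses the strategy `β` and Painter the strategy `π`. -/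
def play (β : Hist V → Sym2 V) (π : Hist V → Sym2 V → Bool) : ℕ → Hist V
  | 0 => []
  | k + 1 => (β (play β π k), π (play β π k) (β (play β π k))) :: play β π k

/-- Builder wins the game `(G, 𝓗)` on the vertex set `V`: he has a strategy `β` such that against
every strategy `π` of Painter, after some number `k` of rounds, with only legal moves of Builder,
there is a monochromatic copy of `G`. -/
def BuilderWins (G : SimpleGraph W) (𝓗 : SimpleGraph V → Prop) : Prop :=
  ∃ β : Hist V → Sym2 V, ∀ π : Hist V → Sym2 V → Bool, ∃ k : ℕ,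
    (∀ j < k, Legal 𝓗 (play β π j) (β (play β π j))) ∧
      ∃ c : Bool, G.IsContained (coloured (play β π k) c)

/-- The class of graphs of maximum degree at most `k`. -/
def MaxDeg (k : ℕ) (G : SimpleGraph V) : Prop := ∀ v, (G.neighborSet v).encard ≤ k

/-! ### Won positions -/

section

variable (G : SimpleGraph W) (𝓗 : SimpleGraph V → Prop)

/-- there is a monochromatic copy of `G` -/
def Target (h : Hist V) : Prop := ∃ c : Bool, G.IsContained (coloured h c)

/-- Builder can win within `k` rounds -/
def WinIn : ℕ → Hist V → Prop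
  | 0, h => Target G h
  | k + 1, h => Target G h ∨ ∃ e, Legal 𝓗 h e ∧ ∀ c, WinIn k ((e, c) :: h)

/-- Builder can win -/
def Won (h : Hist V) : Prop := ∃ k, WinIn G 𝓗 k h

variable {G 𝓗}

theorem WinIn.succ {k : ℕ} {h : Hist V} (hk : WinIn G 𝓗 k h) : WinIn G 𝓗 (k + 1) h := by
  induction k generalizing h with
  | zero => exact Or.inl hk
  | succ k ih =>
    rcases hk with hk | ⟨e, he, hk⟩
    · exact Or.inl hk
    · exact Or.inr ⟨e, he, fun c => ih (hk c)⟩

theorem WinIn.mono {k l : ℕ} {h : Hist V} (hk : WinIn G 𝓗 k h) (hkl : k ≤ l) :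
    WinIn G 𝓗 l h := by
  induction l, hkl using Nat.le_induction with
  | base => exact hk
  | succ l _ ih => exact ih.succ

theorem Won.target {h : Hist V} (ht : Target G h) : Won G 𝓗 h := ⟨0, ht⟩

theorem Won.step {h : Hist V} {e : Sym2 V} (he : Legal 𝓗 h e)
    (hw : ∀ c, Won G 𝓗 ((e, c) :: h)) : Won G 𝓗 h := by
  obtain ⟨k, hk⟩ := hw true
  obtain ⟨l, hl⟩ := hw false
  refine ⟨max k l + 1, Or.inr ⟨e, he, fun c => ?_⟩⟩
  cases c
  · exact hl.mono (le_max_right _ _)
  · exact hk.mono (le_max_left _ _)

/-- If the empty history is won in the inductive sense, Builder has a winning strategy. -/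
theorem builderWins_of_won [Nonempty V] (hw : Won G 𝓗 ([] : Hist V)) : BuilderWins G 𝓗 := by
  classical
  have hV : Nonempty (Sym2 V) := ⟨s(Classical.arbitrary V, Classical.arbitrary V)⟩
  -- the strategy
  have hex : ∀ h : Hist V, ∃ e : Sym2 V, ∀ k, WinIn G 𝓗 (k + 1) h → ¬ WinIn G 𝓗 k h →
      Legal 𝓗 h e ∧ ∀ c, WinIn G 𝓗 k ((e, c) :: h) := by
    intro h
    by_cases h1 : ∃ k, WinIn G 𝓗 (k + 1) h ∧ ¬ WinIn G 𝓗 k h
    · obtain ⟨k, h2, h3⟩ := h1
      rcases h2 with h2 | ⟨e, he, h2⟩
      · exact absurd (WinIn.mono (k := 0) h2 (Nat.zero_le k)) h3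
      · refine ⟨e, fun l h4 h5 => ?_⟩
        have hkl : l = k := by
          rcases lt_trichotomy l k with hlt | heq | hgt
          · exact absurd (h4.mono hlt) h3
          · exact heq
          · exact absurd (WinIn.mono (k := k + 1)
              (show WinIn G 𝓗 (k + 1) h from Or.inr ⟨e, he, h2⟩) hgt) h5
        subst hkl
        exact ⟨he, h2⟩
    · exact ⟨hV.some, fun k h2 h3 => absurd ⟨k, h2, h3⟩ h1⟩
  choose β hβ using hex
  refine ⟨β, fun π => ?_⟩
  have key : ∀ k j, (∀ i < j, Legal 𝓗 (play β π i) (β (play β π i))) →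
      WinIn G 𝓗 k (play β π j) →
      ∃ k', (∀ i < k', Legal 𝓗 (play β π i) (β (play β π i))) ∧ Target G (play β π k') := by
    intro k
    induction k with
    | zero => exact fun j hj hw => ⟨j, hj, hw⟩
    | succ k ih =>
      intro j hj hw
      by_cases h1 : WinIn G 𝓗 k (play β π j)
      · exact ih j hj h1
      · obtain ⟨h2, h3⟩ := hβ (play β π j) k hw h1
        refine ih (j + 1) (fun i hi => ?_) (h3 _)
        rcases Nat.lt_succ_iff_lt_or_eq.1 hi with hi | rfl
        · exact hj i hi
        · exact h2
  obtain ⟨k, hk⟩ := hw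
  obtain ⟨k', h1, h2⟩ := key k 0 (fun i hi => absurd hi (Nat.not_lt_zero i)) hk
  exact ⟨k', h1, h2⟩

end

end Pool.Agent.ORam
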