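import Pool.Agent.ORam.Unif

/-!
# The long path and the uniform theorem
-/

set_option autoImplicit false

namespace Pool.Agent.ORam

open SimpleGraph

variable {V : Type*} {n : ℕ} {c : Bool}

/-- Builder wins from many copies of the pattern of the points of `S` on a line -/
def Lin (V : Type*) (n : ℕ) (c : Bool) (S : Set ℤ) : Prop :=
  WC V n c (ι := S) (fun x => x.1) (fun _ => 0)

theorem Lin.mono {S T : Set ℤ} (h : S ⊆ T) (hS : Lin V n c S) : Lin V n c T :=
  WC.pull (κ := S) (fun x => (⟨x.1, h x.2⟩ : T))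
    (fun x y hxy => Subtype.ext (show x.1 = y.1 from congrArg (fun z : T => z.1) hxy))
    (fun _ => rfl) (fun _ => rfl) hS

/-- doubling at the end `0` -/
theorem Lin.reflect (hn : 3 ≤ n) {S : Set ℤ} (h0 : (0 : ℤ) ∈ S) (hpos : ∀ x ∈ S, 0 ≤ x) (t : ℤ)
    (hw : Lin V n c {z | ∃ x ∈ S, x ≠ 0 ∧ (z = x + t ∨ z = t - 1 - x)}) : Lin V n c S := by
  intro D hD
  refine Wn.double hn ⟨0, h0⟩ ?_
  set T : Set ℤ := {z | ∃ x ∈ S, x ≠ 0 ∧ (z = x + t ∨ z = t - 1 - x)} with hT
  have hm : ∀ z : T, (t < z.1 → z.1 - t ∈ S ∧ z.1 - t ≠ 0) ∧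
      (¬ t < z.1 → t - 1 - z.1 ∈ S ∧ t - 1 - z.1 ≠ 0) := by
    rintro ⟨z, x, hx, hx0, hz⟩
    have hxp : 0 < x := lt_of_le_of_ne (hpos x hx) (Ne.symm hx0)
    constructor
    · intro h1
      have h1' : t < z := h1
      rcases hz with hz | hz
      · have : z - t = x := by omega
        show z - t ∈ S ∧ z - t ≠ 0
        rw [this]
        exact ⟨hx, hx0⟩
      · omega
    · intro h1
      have h1' : ¬ t < z := h1
      rcases hz with hz | hz
      · omega
      · have : t - 1 - z = x := by omega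
        show t - 1 - z ∈ S ∧ t - 1 - z ≠ 0
        rw [this]
        exact ⟨hx, hx0⟩
  classical
  let f : T → {x : S // x ≠ ⟨0, h0⟩} × Bool := fun z =>
    if h : t < z.1 then (⟨⟨z.1 - t, ((hm z).1 h).1⟩, fun h1 => ((hm z).1 h).2 (Subtype.ext_iff.1 h1)⟩, true)
    else (⟨⟨t - 1 - z.1, ((hm z).2 h).1⟩, fun h1 => ((hm z).2 h).2 (Subtype.ext_iff.1 h1)⟩, false)
  have f1 : ∀ z : T, t < z.1 → (f z).2 = true ∧ (f z).1.1.1 = z.1 - t := by
    intro z h
    have : f z = (⟨⟨z.1 - t, ((hm z).1 h).1⟩,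
      fun h1 => ((hm z).1 h).2 (Subtype.ext_iff.1 h1)⟩, true) := dif_pos h
    rw [this]
    exact ⟨rfl, rfl⟩
  have f2 : ∀ z : T, ¬ t < z.1 → (f z).2 = false ∧ (f z).1.1.1 = t - 1 - z.1 := by
    intro z h
    have : f z = (⟨⟨t - 1 - z.1, ((hm z).2 h).1⟩,
      fun h1 => ((hm z).2 h).2 (Subtype.ext_iff.1 h1)⟩, false) := dif_neg h
    rw [this]
    exact ⟨rfl, rfl⟩
  have hDD : ∀ x y : S, x ≠ y → (D x y : ℤ) = |x.1 - y.1| := fun x y hxy =>
    hD x y hxy fun h => h.2 rfl
  refine Wn.pull f ?_ (hw _ ?_)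
  · intro z w hzw
    apply Subtype.ext
    by_cases h1 : t < z.1 <;> by_cases h2 : t < w.1
    · have e1 := (f1 z h1).2
      rw [hzw, (f1 w h2).2] at e1
      omega
    · have e1 := (f1 z h1).1
      rw [hzw, (f2 w h2).1] at e1
      exact Bool.noConfusion e1
    · have e1 := (f2 z h1).1
      rw [hzw, (f1 w h2).1] at e1
      exact Bool.noConfusion e1
    · have e1 := (f2 z h1).2
      rw [hzw, (f2 w h2).2] at e1
      omega
  · intro z w hzw _
    have hne1 : ∀ z : T, (f z).1.1 ≠ ⟨0, h0⟩ := fun z => (f z).1.2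
    have p1 : ∀ z : T, (D (f z).1.1 ⟨0, h0⟩ : ℤ) = (f z).1.1.1 := by
      intro z
      rw [hDD _ _ (hne1 z), sub_zero, abs_of_nonneg (hpos _ (f z).1.1.2)]
    have p2 : ∀ z : T, (D ⟨0, h0⟩ (f z).1.1 : ℤ) = (f z).1.1.1 := by
      intro z
      rw [hDD _ _ (hne1 z).symm, zero_sub, abs_neg, abs_of_nonneg (hpos _ (f z).1.1.2)]
    show ((if (f z).2 = (f w).2 then D (f z).1.1 (f w).1.1
      else D (f z).1.1 ⟨0, h0⟩ + 1 + D ⟨0, h0⟩ (f w).1.1 : ℕ) : ℤ) = |z.1 - w.1|
    by_cases h1 : t < z.1 <;> by_cases h2 : t < w.1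
    · rw [if_pos (by rw [(f1 z h1).1, (f1 w h2).1])]
      rw [hDD _ _ (fun h => hzw (Subtype.ext (by
        have e1 := congrArg Subtype.val h
        rw [(f1 z h1).2, (f1 w h2).2] at e1
        omega))), (f1 z h1).2, (f1 w h2).2]
      congr 1
      ring
    · rw [if_neg (by rw [(f1 z h1).1, (f2 w h2).1]; exact fun h => Bool.noConfusion h)]
      push_cast
      rw [p1, p2, (f1 z h1).2, (f2 w h2).2, abs_of_nonneg (by omega)]
      ring
    · rw [if_neg (by rw [(f2 z h1).1, (f1 w h2).1]; exact fun h => Bool.noConfusion h)]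
      push_cast
      rw [p1, p2, (f2 z h1).2, (f1 w h2).2, abs_of_nonpos (by omega)]
      ring
    · rw [if_pos (by rw [(f2 z h1).1, (f2 w h2).1])]
      rw [hDD _ _ (fun h => hzw (Subtype.ext (by
        have e1 := congrArg Subtype.val h
        rw [(f2 z h1).2, (f2 w h2).2] at e1
        omega))), (f2 z h1).2, (f2 w h2).2, ← abs_neg]
      congr 1
      ring

/-- the middle vertices of the blocks and the two ends of the `k`-fold doubled path -/
def XX (k : ℕ) : Set ℤ :=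
  {z | z = 0 ∨ z = 3 * 2 ^ k - 1 ∨ ∃ i : ℕ, i < 2 ^ k ∧ z = 1 + 3 * i}

theorem Lin.XX_step (hn : 3 ≤ n) (k : ℕ) (h : Lin V n c (XX (k + 1))) : Lin V n c (XX k) := by
  have h2k : (0 : ℤ) < 2 ^ k := by positivity
  refine Lin.reflect hn (Or.inl rfl) ?_ (3 * 2 ^ k) (h.mono ?_)
  · rintro x (rfl | rfl | ⟨i, -, rfl⟩)
    · exact le_rfl
    · omega
    · omega
  · rintro z (rfl | rfl | ⟨i, hi, rfl⟩)
    · refine ⟨3 * 2 ^ k - 1, Or.inr (Or.inl rfl), by omega, Or.inr (by ring)⟩
    · refine ⟨3 * 2 ^ k - 1, Or.inr (Or.inl rfl), by omega, Or.inl ?_⟩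
      rw [pow_succ]
      ring
    · have hcast : ((2 ^ k : ℕ) : ℤ) = 2 ^ k := by push_cast; ring
      rcases Nat.lt_or_ge i (2 ^ k) with h1 | h1
      · refine ⟨1 + 3 * ((2 ^ k - 1 - i : ℕ) : ℤ), Or.inr (Or.inr ⟨2 ^ k - 1 - i, by omega, rfl⟩),
          by omega, Or.inr ?_⟩
        have : ((2 ^ k - 1 - i : ℕ) : ℤ) = 2 ^ k - 1 - i := by
          rw [← hcast]
          omega
        rw [this]
        ring
      · refine ⟨1 + 3 * ((i - 2 ^ k : ℕ) : ℤ), Or.inr (Or.inr ⟨i - 2 ^ k, ?_, rfl⟩),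
          by omega, Or.inl ?_⟩
        · rw [pow_succ] at hi
          omega
        · have : ((i - 2 ^ k : ℕ) : ℤ) = i - 2 ^ k := by
            rw [← hcast]
            omega
          rw [this]
          ring

theorem Wn_of_XX (hn : 3 ≤ n) (k : ℕ) (h : Lin V n c (XX k)) : Wn V n c P3 := by
  induction k with
  | succ k ih => exact ih (Lin.XX_step hn k h)
  | zero =>
    have h1 : WC V n c (ι := Fin 3) (fun i => (i.val : ℤ)) (fun _ => 0) := by
      have hm : ∀ z ∈ XX 0, 0 ≤ z ∧ z < 3 := by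
        rintro z (rfl | rfl | ⟨i, hi, rfl⟩)
        · norm_num
        · norm_num
        · rw [pow_zero] at hi
          obtain rfl : i = 0 := by omega
          norm_num
      refine WC.pull (κ := XX 0) (fun z => ⟨z.1.toNat, by have := hm z.1 z.2; omega⟩) ?_ ?_
        (fun _ => rfl) h
      · intro z w hzw
        have e1 : z.1.toNat = w.1.toNat := congrArg Fin.val hzw
        have e2 := hm z.1 z.2
        have e3 := hm w.1 w.2
        exact Subtype.ext (by omega)
      · intro z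
        have e2 := hm z.1 z.2
        show ((z.1.toNat : ℕ) : ℤ) = z.1
        omega
    refine h1 P3 ?_
    intro x y _ _
    show ((P3 x y : ℕ) : ℤ) = |(x.val : ℤ) - (y.val : ℤ)|
    unfold P3
    rcases le_total x.val y.val with h2 | h2
    · rw [abs_of_nonpos (by omega)]
      omega
    · rw [abs_of_nonneg (by omega)]
      omega

/-! ### Counting -/

theorem exists_tr {r j h : ℕ} (hc : h ≤ r.choose j) :
    ∃ f : ℕ → Fin r → Bool, (∀ i < h, ∀ k < h, f i = f k → i = k) ∧ ∀ i < h, tr (f i) = j := by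
  classical
  set P := (Finset.univ : Finset (Fin r)).powersetCard j with hP
  have hcard : h ≤ P.card := by
    rw [hP, Finset.card_powersetCard, Finset.card_univ, Fintype.card_fin]
    exact hc
  obtain ⟨Q, hQ, hQc⟩ := Finset.exists_subset_card_eq hcard
  let e := Q.equivFinOfCardEq hQc
  refine ⟨fun i => if hi : i < h then fun x => decide (x ∈ (e.symm ⟨i, hi⟩).1) else fun _ => false,
    ?_, ?_⟩
  · intro i hi k hk hik
    dsimp only at hik
    rw [dif_pos hi, dif_pos hk] at hik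
    have h1 : (e.symm ⟨i, hi⟩).1 = (e.symm ⟨k, hk⟩).1 := by
      ext x
      have := congrFun hik x
      simpa using this
    have h2 := e.symm.injective (Subtype.ext h1)
    exact congrArg Fin.val h2
  · intro i hi
    dsimp only
    rw [dif_pos hi]
    have h1 : (e.symm ⟨i, hi⟩).1 ∈ P := hQ (e.symm ⟨i, hi⟩).2
    rw [hP, Finset.mem_powersetCard] at h1
    unfold tr
    simp only [decide_eq_true_eq]
    rw [Finset.sum_ite_mem, Finset.univ_inter, Finset.sum_const, h1.2]
    simp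

/-- the uniform construction -/
theorem Wn_unif {r j h : ℕ} (hn : n = 2 * h + 1) (hh : h = 3 * (r + 1) + (j + 1))
    (hj : h ≤ r.choose (j + 1)) : Wn V n c P3 := by
  have hn3 : 3 ≤ n := by omega
  obtain ⟨f, hf1, hf2⟩ := exists_tr hj
  have hjr : 1 ≤ r.choose j := by
    rcases Nat.lt_or_ge r (j + 1) with h1 | h1
    · rw [Nat.choose_eq_zero_of_lt h1] at hj
      omega
    · exact Nat.choose_pos (by omega)
  obtain ⟨g, -, hg2⟩ := exists_tr hjr
  -- the final profile
  have w1 : WC V n c (ι := (Unit ⊕ (Unit × (Fin r → Bool))) ⊕ (Unit × (Fin r → Bool)))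
      (Sum.elim (Sum.elim (fun _ => 0) (fun p => 3 * ((r : ℤ) + 1) + tr p.2))
        (fun p => -(3 * ((r : ℤ) + 1) + tr p.2)))
      (Sum.elim (Sum.elim (fun _ => 0) (fun _ => 1)) (fun _ => -1)) := by
    refine WC.final (h := h) (by omega) hn _ _ (fun i => ((), f i)) (fun i => ((), f i))
      ((), g 0) ?_ ?_ ?_ ?_ ?_
    · intro i hi k hk hik
      exact hf1 i hi k hk (congrArg Prod.snd hik)
    · intro i hi k hk hik
      exact hf1 i hi k hk (congrArg Prod.snd hik)
    · intro i hi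
      show 3 * ((r : ℤ) + 1) + tr (f i) = h
      rw [hf2 i hi, hh]
      push_cast
      ring
    · intro i hi
      show -(3 * ((r : ℤ) + 1) + tr (f i)) = -h
      rw [hf2 i hi, hh]
      push_cast
      ring
    · show 3 * ((r : ℤ) + 1) + tr (g 0) = h - 1
      rw [hg2 0 one_pos, hh]
      push_cast
      ring
  -- the left chain
  have w2 : WC V n c (ι := (Unit ⊕ (Unit × (Fin r → Bool))) ⊕ (Fin r ⊕ Unit))
      (Sum.elim (Sum.elim (fun _ => 0) (fun p => 3 * ((r : ℤ) + 1) + tr p.2))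
        (Sum.elim (fun i => -(3 * ((i.val : ℤ) + 1))) (fun _ => -(3 * ((r : ℤ) + 1)))))
      (Sum.elim (Sum.elim (fun _ => 0) (fun _ => 1)) (Sum.elim (fun _ => 0) (fun _ => -1))) := by
    apply WC.mirror
    have htr : ∀ s : Fin r → Bool, 0 ≤ tr s := fun s =>
      Finset.sum_nonneg fun i _ => by split_ifs <;> norm_num
    have h1 := WC.right (V := V) (n := n) (c := c) hn3
      (E := Unit ⊕ (Unit × (Fin r → Bool)))
      (Sum.elim (fun _ => 0) (fun p => -(3 * ((r : ℤ) + 1) + tr p.2)))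
      (Sum.elim (fun _ => 0) (fun _ => -1)) (by rintro (_ | _) <;> simp) r
      (B := Unit) (fun _ => 3 * ((r : ℤ) + 1)) (fun i => 3 * ((i.val : ℤ) + 1))
      (fun i k hik => by
        have : i.val ≤ k.val := hik
        show 3 * ((i.val : ℤ) + 1) ≤ 3 * ((k.val : ℤ) + 1)
        omega)
      (by
        rintro (_ | p) i
        · show (0 : ℤ) ≤ 3 * ((i.val : ℤ) + 1)
          omega
        · show -(3 * ((r : ℤ) + 1) + tr p.2) ≤ 3 * ((i.val : ℤ) + 1)
          have := htr p.2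
          omega)
      (by
        intro i _
        have := i.2
        show 3 * ((i.val : ℤ) + 1) ≤ 3 * ((r : ℤ) + 1)
        omega)
      (by
        apply WC.mirror
        refine WC.pull (fun x => x) (fun _ _ h => h) ?_ ?_ w1
        · rintro ((x | x) | x)
          · show - (0 : ℤ) = 0
            norm_num
          · show - (-(3 * ((r : ℤ) + 1) + tr x.2)) = 3 * ((r : ℤ) + 1) + tr x.2
            ring
          · rfl
        · rintro ((x | x) | x)
          · show - (0 : ℤ) = 0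
            norm_num
          · show - (-1 : ℤ) = 1
            norm_num
          · rfl)
    refine WC.pull (fun x => x) (fun _ _ h => h) ?_ ?_ h1
    · rintro ((x | x) | x | x)
      · show - (0 : ℤ) = 0
        norm_num
      · rfl
      · show - (-(3 * ((x.val : ℤ) + 1))) = 3 * ((x.val : ℤ) + 1)
        ring
      · show - (-(3 * ((r : ℤ) + 1))) = 3 * ((r : ℤ) + 1)
        ring
    · rintro ((x | x) | x | x)
      · show - (0 : ℤ) = 0
        norm_num
      · rfl
      · show - (0 : ℤ) = 0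
        norm_num
      · show - (-1 : ℤ) = 1
        norm_num
  -- the right chain
  have w3 : WC V n c (ι := (Unit ⊕ (Fin r ⊕ Unit)) ⊕ (Fin r ⊕ Unit))
      (Sum.elim (Sum.elim (fun _ => 0)
        (Sum.elim (fun i => -(3 * ((i.val : ℤ) + 1))) (fun _ => -(3 * ((r : ℤ) + 1)))))
        (Sum.elim (fun i => 3 * ((i.val : ℤ) + 1)) (fun _ => 3 * ((r : ℤ) + 1))))
      (Sum.elim (Sum.elim (fun _ => 0) (Sum.elim (fun _ => 0) (fun _ => -1)))
        (Sum.elim (fun _ => 0) (fun _ => 1))) := by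
    refine WC.right (V := V) (n := n) (c := c) hn3
      (E := Unit ⊕ (Fin r ⊕ Unit)) _ _ (by rintro (_ | _ | _) <;> simp) r
      (B := Unit) (fun _ => 3 * ((r : ℤ) + 1)) (fun i => 3 * ((i.val : ℤ) + 1))
      (fun i k hik => by
        have : i.val ≤ k.val := hik
        show 3 * ((i.val : ℤ) + 1) ≤ 3 * ((k.val : ℤ) + 1)
        omega)
      (by
        rintro (_ | p | _) i
        · show (0 : ℤ) ≤ 3 * ((i.val : ℤ) + 1)
          omega
        · show -(3 * ((p.val : ℤ) + 1)) ≤ 3 * ((i.val : ℤ) + 1)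
          omega
        · show -(3 * ((r : ℤ) + 1)) ≤ 3 * ((i.val : ℤ) + 1)
          omega)
      (by
        intro i _
        have := i.2
        show 3 * ((i.val : ℤ) + 1) ≤ 3 * ((r : ℤ) + 1)
        omega) ?_
    refine WC.pull (κ := (Unit ⊕ (Unit × (Fin r → Bool))) ⊕ (Fin r ⊕ Unit))
      (Sum.elim (Sum.elim (fun u => Sum.inl (Sum.inl u)) (fun p => Sum.inr p))
        (fun y => Sum.inl (Sum.inr y))) ?_ ?_ ?_ w2
    · rintro ((x | x) | x) ((y | y) | y) hxy
      · rfl
      · exact absurd hxy (by simp)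
      · exact absurd hxy (by simp)
      · exact absurd hxy (by simp)
      · rw [show x = y from Sum.inr_injective hxy]
      · exact absurd hxy (by simp)
      · exact absurd hxy (by simp)
      · exact absurd hxy (by simp)
      · rw [show x = y from Sum.inr_injective (Sum.inl_injective hxy)]
    · rintro ((x | x) | x | x) <;> rfl
    · rintro ((x | x) | x | x) <;> rfl
  -- a long path
  obtain ⟨k, hk⟩ : ∃ k : ℕ, 2 * r + 3 ≤ 2 ^ k := ⟨2 * r + 3, Nat.lt_two_pow_self.le⟩
  refine Wn_of_XX hn3 k ?_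
  have w4 := w3.weaken
  have hmid : ∀ i : ℕ, i < 2 * r + 3 → (1 + 3 * (i : ℤ)) ∈ XX k := fun i hi =>
    Or.inr (Or.inr ⟨i, lt_of_lt_of_le hi hk, rfl⟩)
  -- shift the positions by `1 + 3 (r + 1)`
  have w5 : WC V n c (ι := (Unit ⊕ (Fin r ⊕ Unit)) ⊕ (Fin r ⊕ Unit))
      (fun x => Sum.elim (Sum.elim (fun _ => 0)
        (Sum.elim (fun i => -(3 * ((i.val : ℤ) + 1))) (fun _ => -(3 * ((r : ℤ) + 1)))))
        (Sum.elim (fun i => 3 * ((i.val : ℤ) + 1)) (fun _ => 3 * ((r : ℤ) + 1))) x +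
        (1 + 3 * ((r : ℤ) + 1))) (fun _ => 0) := by
    intro D hD
    refine w4 D fun x y hxy hs => ?_
    rw [hD x y hxy hs]
    congr 1
    ring
  have hmem : ∀ x : (Unit ⊕ (Fin r ⊕ Unit)) ⊕ (Fin r ⊕ Unit),
      Sum.elim (Sum.elim (fun _ => 0)
        (Sum.elim (fun i => -(3 * ((i.val : ℤ) + 1))) (fun _ => -(3 * ((r : ℤ) + 1)))))
        (Sum.elim (fun i => 3 * ((i.val : ℤ) + 1)) (fun _ => 3 * ((r : ℤ) + 1))) x +
        (1 + 3 * ((r : ℤ) + 1)) ∈ XX k := by
    rintro ((x | x | x) | x | x)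
    · have := hmid (r + 1) (by omega)
      show (0 : ℤ) + (1 + 3 * ((r : ℤ) + 1)) ∈ XX k
      rw [show (0 : ℤ) + (1 + 3 * ((r : ℤ) + 1)) = 1 + 3 * ((r + 1 : ℕ) : ℤ) by push_cast; ring]
      exact this
    · have hx := x.2
      have := hmid (r - x.val) (by omega)
      show -(3 * ((x.val : ℤ) + 1)) + (1 + 3 * ((r : ℤ) + 1)) ∈ XX k
      rw [show -(3 * ((x.val : ℤ) + 1)) + (1 + 3 * ((r : ℤ) + 1)) =
        1 + 3 * ((r - x.val : ℕ) : ℤ) by omega]
      exact this
    · have := hmid 0 (by omega)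
      show -(3 * ((r : ℤ) + 1)) + (1 + 3 * ((r : ℤ) + 1)) ∈ XX k
      rw [show -(3 * ((r : ℤ) + 1)) + (1 + 3 * ((r : ℤ) + 1)) = 1 + 3 * ((0 : ℕ) : ℤ) by
        push_cast; ring]
      exact this
    · have hx := x.2
      have := hmid (r + 2 + x.val) (by omega)
      show 3 * ((x.val : ℤ) + 1) + (1 + 3 * ((r : ℤ) + 1)) ∈ XX k
      rw [show 3 * ((x.val : ℤ) + 1) + (1 + 3 * ((r : ℤ) + 1)) =
        1 + 3 * ((r + 2 + x.val : ℕ) : ℤ) by push_cast; ring]
      exact this
    · have := hmid (2 * r + 2) (by omega)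
      show 3 * ((r : ℤ) + 1) + (1 + 3 * ((r : ℤ) + 1)) ∈ XX k
      rw [show 3 * ((r : ℤ) + 1) + (1 + 3 * ((r : ℤ) + 1)) = 1 + 3 * ((2 * r + 2 : ℕ) : ℤ) by
        push_cast; ring]
      exact this
  refine WC.pull (κ := (Unit ⊕ (Fin r ⊕ Unit)) ⊕ (Fin r ⊕ Unit))
    (fun x => ⟨_, hmem x⟩) ?_ (fun _ => rfl) (fun _ => rfl) w5
  intro x y hxy
  have h1 := add_right_cancel (Subtype.ext_iff.1 hxy)
  rcases x with (x | x | x) | x | x <;> rcases y with (y | y | y) | y | y <;>
    simp only [Sum.elim_inl, Sum.elim_inr] at h1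
  · rfl
  · omega
  · omega
  · omega
  · omega
  · omega
  · have : x = y := Fin.ext (by omega)
    rw [this]
  · have := x.2
    omega
  · omega
  · omega
  · omega
  · have := y.2
    omega
  · rfl
  · omega
  · omega
  · omega
  · omega
  · omega
  · have : x = y := Fin.ext (by omega)
    rw [this]
  · have := x.2
    omega
  · omega
  · omega
  · omega
  · have := y.2
    omega
  · rfl

end Pool.Agent.ORam
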