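import Pool.Agent.ORam.Pos

/-!
# The basic move: Builder draws a closed sequence of edges
-/

set_option autoImplicit false

namespace Pool.Agent.ORam

open SimpleGraph

variable {V : Type*}

/-- the edges of a closed sequence of vertices -/
def ce (n : ℕ) (a : ℕ → V) (i : ℕ) : Sym2 V := s(a i, a ((i + 1) % n))

/-- the history after `k` edges of the closed sequence, all of colour `c` -/
def ch (n : ℕ) (a : ℕ → V) (c : Bool) (h : Hist V) : ℕ → Hist V
  | 0 => h
  | k + 1 => (ce n a k, c) :: ch n a c h k

theorem mem_ch {n : ℕ} {a : ℕ → V} {c : Bool} {h : Hist V} {k : ℕ} {x : Sym2 V × Bool} :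
    x ∈ ch n a c h k ↔ x ∈ h ∨ ∃ i < k, x = (ce n a i, c) := by
  induction k with
  | zero =>
    constructor
    · exact fun hx => Or.inl hx
    · rintro (hx | ⟨i, hi, -⟩)
      · exact hx
      · exact absurd hi (Nat.not_lt_zero i)
  | succ k ih =>
    have h1 : x ∈ ch n a c h (k + 1) ↔ x = (ce n a k, c) ∨ x ∈ ch n a c h k :=
      List.mem_cons
    rw [h1, ih]
    constructor
    · rintro (hx | hx | ⟨i, hi, hx⟩)
      · exact Or.inr ⟨k, Nat.lt_succ_self k, hx⟩
      · exact Or.inl hx
      · exact Or.inr ⟨i, Nat.lt_succ_of_lt hi, hx⟩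
    · rintro (hx | ⟨i, hi, hx⟩)
      · exact Or.inr (Or.inl hx)
      · rcases Nat.lt_succ_iff_lt_or_eq.1 hi with hi | rfl
        · exact Or.inr (Or.inr ⟨i, hi, hx⟩)
        · exact Or.inl hx

open Classical in
/-- the number of the first `k` edges of the closed sequence which contain `v` -/
noncomputable def cnt (n : ℕ) (a : ℕ → V) (v : V) (k : ℕ) : ℕ :=
  ((Finset.range k).filter fun i => v ∈ ce n a i).card

theorem cnt_succ (n : ℕ) (a : ℕ → V) (v : V) (k : ℕ) [Decidable (v ∈ ce n a k)] :
    cnt n a v (k + 1) = cnt n a v k + if v ∈ ce n a k then 1 else 0 := by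
  unfold cnt
  rw [Finset.range_add_one, Finset.filter_insert]
  split_ifs with h
  · rw [Finset.card_insert_of_notMem (by simp)]
  · rfl

theorem dg_ch {n : ℕ} {a : ℕ → V} {c : Bool} {h : Hist V} {k : ℕ} (v : V) :
    dg (ch n a c h k) v = dg h v + cnt n a v k := by
  classical
  induction k with
  | zero => simp [ch, cnt]
  | succ k ih =>
    rw [cnt_succ]
    show dg ((ce n a k, c) :: ch n a c h k) v = _
    rw [dg_cons, ih, add_assoc]

theorem cnt_le_two {n : ℕ} {a : ℕ → V} (hinj : ∀ i < n, ∀ j < n, a i = a j → i = j)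
    {k : ℕ} (hk : k ≤ n) (v : V) : cnt n a v k ≤ 2 := by
  classical
  by_cases hv : ∃ j < n, v = a j
  · obtain ⟨j, hj, rfl⟩ := hv
    have hsub : ((Finset.range k).filter fun i => a j ∈ ce n a i) ⊆ {j, (j + n - 1) % n} := by
      intro i hi
      rw [Finset.mem_filter, Finset.mem_range] at hi
      obtain ⟨hik, hi⟩ := hi
      have hin : i < n := lt_of_lt_of_le hik hk
      rw [Finset.mem_insert, Finset.mem_singleton]
      unfold ce at hi
      rw [Sym2.mem_iff] at hi
      rcases hi with hi | hi
      · exact Or.inl (hinj j hj i hin hi).symm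
      · right
        have h1 := hinj j hj _ (Nat.mod_lt _ (by omega)) hi
        rcases Nat.lt_or_ge (i + 1) n with h2 | h2
        · rw [Nat.mod_eq_of_lt h2] at h1
          subst h1
          rw [show i + 1 + n - 1 = i + n by omega, Nat.add_mod_right, Nat.mod_eq_of_lt hin]
        · have h3 : i + 1 = n := by omega
          rw [h3, Nat.mod_self] at h1
          subst h1
          rw [Nat.zero_add, Nat.mod_eq_of_lt (by omega)]
          omega
    unfold cnt
    exact (Finset.card_le_card hsub).trans Finset.card_le_two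
  · push Not at hv
    have : ((Finset.range k).filter fun i => v ∈ ce n a i) = ∅ := by
      rw [Finset.filter_eq_empty_iff]
      intro i hi hvi
      have hin : i < n := lt_of_lt_of_le (Finset.mem_range.1 hi) hk
      unfold ce at hvi
      rw [Sym2.mem_iff] at hvi
      rcases hvi with hvi | hvi
      · exact hv i hin hvi
      · exact hv _ (Nat.mod_lt _ (by omega)) hvi
    unfold cnt
    rw [this]
    simp

theorem cnt_eq_zero {n : ℕ} {a : ℕ → V} {k : ℕ} (hk : k ≤ n) {v : V}
    (hv : ∀ j < n, v ≠ a j) : cnt n a v k = 0 := by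
  classical
  unfold cnt
  rw [Finset.card_eq_zero, Finset.filter_eq_empty_iff]
  intro i hi hvi
  have hin : i < n := lt_of_lt_of_le (Finset.mem_range.1 hi) hk
  unfold ce at hvi
  rw [Sym2.mem_iff] at hvi
  rcases hvi with hvi | hvi
  · exact hv i hin hvi
  · exact hv _ (Nat.mod_lt _ (by omega)) hvi

theorem ce_ne {n : ℕ} (hn : 3 ≤ n) {a : ℕ → V} (hinj : ∀ i < n, ∀ j < n, a i = a j → i = j)
    {i k : ℕ} (hi : i < n) (hk : k < n) (hik : i ≠ k) : ce n a i ≠ ce n a k := by
  intro h
  unfold ce at h
  rw [Sym2.eq_iff] at h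
  rcases h with ⟨h1, -⟩ | ⟨h1, h2⟩
  · exact hik (hinj i hi k hk h1)
  · have h3 := hinj i hi _ (Nat.mod_lt _ (by omega)) h1
    have h4 := hinj _ (Nat.mod_lt _ (by omega)) k hk h2
    rcases Nat.lt_or_ge (k + 1) n with h5 | h5
    · rw [Nat.mod_eq_of_lt h5] at h3
      subst h3
      rcases Nat.lt_or_ge (k + 1 + 1) n with h6 | h6
      · rw [Nat.mod_eq_of_lt h6] at h4
        omega
      · rw [show k + 1 + 1 = n by omega, Nat.mod_self] at h4
        omega
    · rw [show k + 1 = n by omega, Nat.mod_self] at h3
      subst h3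
      rw [Nat.mod_eq_of_lt (by omega)] at h4
      omega

/-- The basic move.  The vertices `a 0, …, a (n - 1)` have degree at most `2` and the edges of the
closed sequence are new.  Builder draws them one after another until one of them, the `i`-th, gets
the colour `c`; if none does there is a cycle of the other colour. -/
theorem cycle_move {n : ℕ} (hn : 3 ≤ n) {h : Hist V} (hok : ∀ v, dg h v ≤ 4) {c : Bool}
    (a : ℕ → V) (hinj : ∀ i < n, ∀ j < n, a i = a j → i = j)
    (hdeg : ∀ i < n, dg h (a i) ≤ 2) (hnp : ∀ i < n, ¬ Pres h (ce n a i))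
    (hwin : ∀ i < n, ∀ h' : Hist V, (∀ v, dg h' v ≤ 4) → (ce n a i, c) ∈ h' →
      (∀ x ∈ h, x ∈ h') → (∀ x ∈ h', x ∈ h ∨ ∃ j < n, x.1 = ce n a j) →
      (∀ v, (∀ j < n, v ≠ a j) → dg h' v = dg h v) → Won (cycleGraph n) (MaxDeg 4) h') :
    Won (cycleGraph n) (MaxDeg 4) h := by
  classical
  have hdg : ∀ k ≤ n, ∀ v, dg (ch n a (!c) h k) v ≤ 4 := by
    intro k hk v
    rw [dg_ch]
    by_cases hv : ∃ j < n, v = a j
    · obtain ⟨j, hj, rfl⟩ := hv
      have h1 := hdeg j hj
      have h2 := cnt_le_two hinj hk (a j)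
      omega
    · push Not at hv
      rw [cnt_eq_zero hk hv]
      exact hok v
  have hne : ∀ i < n, a i ≠ a ((i + 1) % n) := by
    intro i hi h1
    have h2 := hinj i hi _ (Nat.mod_lt _ (by omega)) h1
    rcases Nat.lt_or_ge (i + 1) n with h3 | h3
    · rw [Nat.mod_eq_of_lt h3] at h2
      omega
    · rw [show i + 1 = n by omega, Nat.mod_self] at h2
      omega
  have key : ∀ k ≤ n, Won (cycleGraph n) (MaxDeg 4) (ch n a (!c) h (n - k)) := by
    intro k
    induction k with
    | zero =>
      intro _
      rw [Nat.sub_zero]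
      refine Won.target (target_of_cyc hn a hinj (c := !c) fun i hi => ?_)
      exact mem_ch.2 (Or.inr ⟨i, hi, rfl⟩)
    | succ k ih =>
      intro hk
      have hm : n - k = (n - (k + 1)) + 1 := by omega
      set m := n - (k + 1) with hmdef
      have hmn : m < n := by omega
      have hih := ih (by omega)
      rw [hm] at hih
      have hleg : Legal (MaxDeg 4) (ch n a (!c) h m) (ce n a m) := by
        refine legal_of (hne m hmn) ?_ ?_
        · rintro ⟨c', hc'⟩
          rcases mem_ch.1 hc' with h1 | ⟨i, hi, h1⟩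
          · exact hnp m hmn ⟨c', h1⟩
          · exact ce_ne hn hinj hmn (lt_trans hi hmn) (ne_of_gt hi) (congrArg Prod.fst h1)
        · intro v
          have h1 := hdg (m + 1) hmn v
          have h2 : dg (ch n a (!c) h (m + 1)) v =
              dg ((ce n a m, true) :: ch n a (!c) h m) v := by
            show dg ((ce n a m, !c) :: ch n a (!c) h m) v = _
            rw [dg_cons, dg_cons]
          rw [h2] at h1
          exact h1
      refine Won.step hleg fun c' => ?_
      by_cases hc : c' = c
      · subst hc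
        refine hwin m hmn _ ?_ (List.mem_cons_self) ?_ ?_ ?_
        · intro v
          have h1 := hdg (m + 1) hmn v
          have h2 : dg (ch n a (!c') h (m + 1)) v =
              dg ((ce n a m, c') :: ch n a (!c') h m) v := by
            show dg ((ce n a m, !c') :: ch n a (!c') h m) v = _
            rw [dg_cons, dg_cons]
          rw [h2] at h1
          exact h1
        · intro x hx
          exact List.mem_cons_of_mem _ (mem_ch.2 (Or.inl hx))
        · intro x hx
          rcases List.mem_cons.1 hx with rfl | hx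
          · exact Or.inr ⟨m, hmn, rfl⟩
          · rcases mem_ch.1 hx with h1 | ⟨i, hi, rfl⟩
            · exact Or.inl h1
            · exact Or.inr ⟨i, lt_trans hi hmn, rfl⟩
        · intro v hv
          have h2 : dg ((ce n a m, c') :: ch n a (!c') h m) v =
              dg (ch n a (!c') h (m + 1)) v := by
            show _ = dg ((ce n a m, !c') :: ch n a (!c') h m) v
            rw [dg_cons, dg_cons]
          rw [h2, dg_ch, cnt_eq_zero hmn hv, add_zero]
      · have hc' : c' = !c := by
          cases c <;> cases c' <;> simp_all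
        rw [hc']
        exact hih
  have := key n le_rfl
  rw [Nat.sub_self] at this
  exact this

end Pool.Agent.ORam
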