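import Pool.Agent.ORam.Game

/-!
# Positions of the game with maximum degree four: degrees, legal moves, cycles
-/

set_option autoImplicit false

namespace Pool.Agent.ORam

open SimpleGraph

variable {V : Type*}

open Classical in
/-- the number of presented edges at `v` -/
noncomputable def dg (h : Hist V) (v : V) : ℕ := (h.filter fun x => decide (v ∈ x.1)).length

/-- the edge `e` has been presented -/
def Pres (h : Hist V) (e : Sym2 V) : Prop := ∃ c, (e, c) ∈ h

theorem dg_nil (v : V) : dg ([] : Hist V) v = 0 := rfl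

theorem dg_cons_of_mem {x : Sym2 V × Bool} {h : Hist V} {v : V} (hv : v ∈ x.1) :
    dg (x :: h) v = dg h v + 1 := by
  unfold dg
  rw [List.filter_cons_of_pos (by simpa using hv), List.length_cons]

theorem dg_cons_of_notMem {x : Sym2 V × Bool} {h : Hist V} {v : V} (hv : v ∉ x.1) :
    dg (x :: h) v = dg h v := by
  unfold dg
  rw [List.filter_cons_of_neg (by simpa using hv)]

open Classical in
theorem dg_cons (x : Sym2 V × Bool) (h : Hist V) (v : V) :
    dg (x :: h) v = dg h v + if v ∈ x.1 then 1 else 0 := by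
  split_ifs with hv
  · exact dg_cons_of_mem hv
  · exact dg_cons_of_notMem hv

theorem presented_adj {h : Hist V} {v w : V} :
    (presented h).Adj v w ↔ Pres h s(v, w) ∧ v ≠ w := by
  unfold presented Pres
  rw [SimpleGraph.fromEdgeSet_adj]
  rfl

theorem coloured_adj {h : Hist V} {c : Bool} {v w : V} :
    (coloured h c).Adj v w ↔ (s(v, w), c) ∈ h ∧ v ≠ w := by
  unfold coloured
  rw [SimpleGraph.fromEdgeSet_adj]
  rfl

theorem maxDeg_of_dg {h : Hist V} {k : ℕ} (hd : ∀ v, dg h v ≤ k) : MaxDeg k (presented h) := by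
  classical
  intro v
  set F : Finset (Sym2 V) := ((h.filter fun x => decide (v ∈ x.1)).map Prod.fst).toFinset with hF
  have h1 : ((presented h).neighborSet v).encard ≤ (F : Set (Sym2 V)).encard := by
    refine Set.encard_le_encard_of_injOn (f := fun w => s(v, w)) ?_ ?_
    · intro w hw
      rw [SimpleGraph.mem_neighborSet, presented_adj] at hw
      obtain ⟨⟨c, hc⟩, -⟩ := hw
      rw [Finset.mem_coe, hF, List.mem_toFinset, List.mem_map]
      exact ⟨(s(v, w), c), List.mem_filter.2 ⟨hc, by simp⟩, rfl⟩
    · intro w _ w' _ hww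
      exact Sym2.congr_right.1 hww
  refine h1.trans ?_
  rw [Set.encard_coe_eq_coe_finsetCard]
  have h2 : F.card ≤ k := by
    refine (List.toFinset_card_le _).trans ?_
    rw [List.length_map]
    exact hd v
  exact_mod_cast h2

theorem legal_of {h : Hist V} {x y : V} (hxy : x ≠ y) (hnp : ¬ Pres h s(x, y))
    (hd : ∀ v, dg ((s(x, y), true) :: h) v ≤ 4) : Legal (MaxDeg 4) h s(x, y) := by
  refine ⟨by simpa using hxy, fun c hc => hnp ⟨c, hc⟩, maxDeg_of_dg hd⟩

/-- a closed sequence of `n` different vertices whose consecutive pairs have colour `c` -/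
theorem target_of_cyc {n : ℕ} (hn : 3 ≤ n) {h : Hist V} {c : Bool} (f : ℕ → V)
    (hinj : ∀ i < n, ∀ j < n, f i = f j → i = j)
    (hf : ∀ i < n, (s(f i, f ((i + 1) % n)), c) ∈ h) : Target (cycleGraph n) h := by
  have hstep : ∀ u v : Fin n, (v - u).val = 1 → (coloured h c).Adj (f u) (f v) := by
    intro u v huv
    have h1 : v.val = (u.val + 1) % n := by
      have h2 : v = (v - u) + u := by
        have : NeZero n := ⟨by omega⟩
        rw [sub_add_cancel]
      have h3 : v.val = ((v - u).val + u.val) % n := by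
        conv_lhs => rw [h2]
        rw [Fin.val_add]
      rw [h3, huv, add_comm]
    rw [coloured_adj]
    refine ⟨by rw [h1]; exact hf u u.2, fun h2 => ?_⟩
    have h3 : u = v := Fin.ext (hinj u u.2 v v.2 h2)
    have : NeZero n := ⟨by omega⟩
    rw [h3, sub_self] at huv
    simp at huv
  refine ⟨c, ⟨⟨⟨fun i => f i, ?_⟩, ?_⟩⟩⟩
  · intro u v huv
    rw [cycleGraph_adj'] at huv
    rcases huv with huv | huv
    · exact (hstep v u huv).symm
    · exact hstep u v huv
  · intro u v huv
    exact Fin.ext (hinj u u.2 v v.2 huv)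

end Pool.Agent.ORam
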