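import Pool.Agent.ORam.Move

/-!
# Closed regions, copies of patterns, doubling and finishing
-/

set_option autoImplicit false

namespace Pool.Agent.ORam

open SimpleGraph

variable {V : Type*}

/-- every presented edge at `S` lies in `S` -/
def Closed (h : Hist V) (S : Set V) : Prop := ∀ x ∈ S, ∀ y, Pres h s(x, y) → y ∈ S

/-- the histories agree at `S` -/
structure Agree (h h' : Hist V) (S : Set V) : Prop where
  mem : ∀ e c, (∃ v ∈ S, v ∈ e) → ((e, c) ∈ h ↔ (e, c) ∈ h')
  dg : ∀ v ∈ S, dg h v = dg h' v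

/-- a path of `d` edges of colour `c` in `S` from `x` to `y` -/
def Pth (h : Hist V) (c : Bool) (S : Set V) (d : ℕ) (x y : V) : Prop :=
  ∃ f : ℕ → V, f 0 = x ∧ f d = y ∧ (∀ i ≤ d, f i ∈ S) ∧
    (∀ i ≤ d, ∀ j ≤ d, f i = f j → i = j) ∧ ∀ i < d, (s(f i, f (i + 1)), c) ∈ h

/-- A copy `u` in the closed region `S` of the metric pattern `D`: the vertices `u i` have degree at
most `2`, `u i` and `u j` are joined by a path of `D i j` edges of colour `c`, and if the edge
between them has been presented, then `D i j = 1`. -/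
structure Cp (h : Hist V) (c : Bool) (S : Set V) {ι : Type} (D : ι → ι → ℕ) (u : ι → V) :
    Prop where
  mem : ∀ i, u i ∈ S
  inj : Function.Injective u
  deg : ∀ i, dg h (u i) ≤ 2
  path : ∀ i j, i ≠ j → Pth h c S (D i j) (u i) (u j)
  adj : ∀ i j, i ≠ j → Pres h s(u i, u j) → D i j = 1
  closed : Closed h S

/-- there is a copy of the pattern `D` in the region `S` -/
def HasCp (h : Hist V) (c : Bool) (S : Set V) {ι : Type} (D : ι → ι → ℕ) : Prop :=
  ∃ u, Cp h c S D u

theorem Pres.symm {h : Hist V} {x y : V} (hp : Pres h s(x, y)) : Pres h s(y, x) := by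
  rwa [Sym2.eq_swap]

theorem Pth.mono {h h' : Hist V} {c : Bool} {S S' : Set V} {d : ℕ} {x y : V}
    (hp : Pth h c S d x y) (hh : ∀ z ∈ h, z ∈ h') (hS : S ⊆ S') : Pth h' c S' d x y := by
  obtain ⟨f, h0, h1, h2, h3, h4⟩ := hp
  exact ⟨f, h0, h1, fun i hi => hS (h2 i hi), h3, fun i hi => hh _ (h4 i hi)⟩

theorem Pth.append {h : Hist V} {c : Bool} {S S' : Set V} {d d' : ℕ} {x a b y : V}
    (hp : Pth h c S d x a) (hp' : Pth h c S' d' b y) (hS : Disjoint S S')
    (hab : (s(a, b), c) ∈ h) : Pth h c (S ∪ S') (d + 1 + d') x y := by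
  obtain ⟨f, h0, h1, h2, h3, h4⟩ := hp
  obtain ⟨g, g0, g1, g2, g3, g4⟩ := hp'
  have hF1 : ∀ i, i ≤ d → (fun i => if i ≤ d then f i else g (i - (d + 1))) i = f i :=
    fun i hi => if_pos hi
  have hF2 : ∀ i, d < i → (fun i => if i ≤ d then f i else g (i - (d + 1))) i = g (i - (d + 1)) :=
    fun i hi => if_neg (Nat.not_le.2 hi)
  refine ⟨fun i => if i ≤ d then f i else g (i - (d + 1)), ?_, ?_, ?_, ?_, ?_⟩
  · rw [hF1 0 (Nat.zero_le _), h0]
  · rw [hF2 _ (by omega), show d + 1 + d' - (d + 1) = d' by omega, g1]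
  · intro i hi
    rcases Nat.lt_or_ge d i with h5 | h5
    · rw [hF2 i h5]
      exact Or.inr (g2 _ (by omega))
    · rw [hF1 i h5]
      exact Or.inl (h2 i h5)
  · intro i hi j hj hij
    rcases Nat.lt_or_ge d i with h5 | h5 <;> rcases Nat.lt_or_ge d j with h6 | h6
    · rw [hF2 i h5, hF2 j h6] at hij
      have := g3 _ (by omega) _ (by omega) hij
      omega
    · rw [hF2 i h5, hF1 j h6] at hij
      exact absurd (hij ▸ h2 j h6) (Set.disjoint_right.1 hS (g2 _ (by omega)))
    · rw [hF1 i h5, hF2 j h6] at hij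
      exact absurd (hij ▸ g2 _ (by omega)) (Set.disjoint_left.1 hS (h2 i h5))
    · rw [hF1 i h5, hF1 j h6] at hij
      exact h3 i h5 j h6 hij
  · intro i hi
    rcases lt_trichotomy i d with h5 | h5 | h5
    · rw [hF1 i h5.le, hF1 (i + 1) h5]
      exact h4 i h5
    · subst h5
      rw [hF1 i le_rfl, hF2 (i + 1) (Nat.lt_succ_self i), Nat.sub_self, h1, g0]
      exact hab
    · rw [hF2 i h5, hF2 (i + 1) (by omega), show i + 1 - (d + 1) = i - (d + 1) + 1 by omega]
      exact g4 _ (by omega)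

theorem target_of_path {n : ℕ} (hn : 3 ≤ n) {h : Hist V} {c : Bool} {S : Set V} {x y : V}
    (hp : Pth h c S (n - 1) x y) (hxy : (s(x, y), c) ∈ h) : Target (cycleGraph n) h := by
  obtain ⟨f, h0, h1, h2, h3, h4⟩ := hp
  refine target_of_cyc hn (c := c) f (fun i hi j hj hij => h3 i (by omega) j (by omega) hij) ?_
  intro i hi
  rcases Nat.lt_or_ge (i + 1) n with h5 | h5
  · rw [Nat.mod_eq_of_lt h5]
    exact h4 i (by omega)
  · have h6 : i = n - 1 := by omega
    subst h6
    rw [show n - 1 + 1 = n by omega, Nat.mod_self, h0, h1, Sym2.eq_swap]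
    exact hxy

theorem Agree.pres {h h' : Hist V} {S : Set V} (ha : Agree h h' S) {x y : V} (hx : x ∈ S) :
    Pres h s(x, y) ↔ Pres h' s(x, y) := by
  unfold Pres
  constructor
  · rintro ⟨c, hc⟩
    exact ⟨c, (ha.mem _ _ ⟨x, hx, Sym2.mem_mk_left x y⟩).1 hc⟩
  · rintro ⟨c, hc⟩
    exact ⟨c, (ha.mem _ _ ⟨x, hx, Sym2.mem_mk_left x y⟩).2 hc⟩

theorem Agree.hasCp {h h' : Hist V} {S : Set V} (ha : Agree h h' S) {c : Bool} {ι : Type}
    {D : ι → ι → ℕ} (hc : HasCp h c S D) : HasCp h' c S D := by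
  obtain ⟨u, hu⟩ := hc
  refine ⟨u, hu.mem, hu.inj, fun i => ?_, fun i j hij => ?_, fun i j hij hp => ?_, ?_⟩
  · rw [← ha.dg _ (hu.mem i)]
    exact hu.deg i
  · obtain ⟨f, h0, h1, h2, h3, h4⟩ := hu.path i j hij
    refine ⟨f, h0, h1, h2, h3, fun k hk => ?_⟩
    exact (ha.mem _ _ ⟨f k, h2 k hk.le, Sym2.mem_mk_left _ _⟩).1 (h4 k hk)
  · exact hu.adj i j hij ((ha.pres (hu.mem i)).2 hp)
  · exact fun x hx y hp => hu.closed x hx y ((ha.pres hx).2 hp)

/-- forgetting points of a pattern -/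
theorem HasCp.pull {h : Hist V} {c : Bool} {S : Set V} {ι κ : Type} {D : ι → ι → ℕ}
    (hc : HasCp h c S D) (f : κ → ι) (hf : Function.Injective f) :
    HasCp h c S (fun i j => D (f i) (f j)) := by
  obtain ⟨u, hu⟩ := hc
  exact ⟨fun i => u (f i), fun i => hu.mem _, hu.inj.comp hf, fun i => hu.deg _,
    fun i j hij => hu.path _ _ (hf.ne hij), fun i j hij hp => hu.adj _ _ (hf.ne hij) hp,
    hu.closed⟩

/-- the pattern obtained by joining two copies of the pattern `D` at the point `r` -/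
def dbl {ι : Type} (D : ι → ι → ℕ) (r : ι) (p q : {x : ι // x ≠ r} × Bool) : ℕ :=
  if p.2 = q.2 then D p.1 q.1 else D p.1 r + 1 + D r q.1

/-- the closed sequence between the copies: properties of the position which is reached -/
theorem double_move {n : ℕ} (hn : 3 ≤ n) {h : Hist V} (hok : ∀ v, dg h v ≤ 4) {c : Bool}
    (S : ℕ → Set V) (hS : ∀ i < n, ∀ j < n, i ≠ j → Disjoint (S i) (S j)) {ι : Type}
    {D : ι → ι → ℕ} (hcp : ∀ i < n, HasCp h c (S i) D) (r : ι)
    (hwin : ∀ h' : Hist V, (∀ v, dg h' v ≤ 4) →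
      HasCp h' c {x | ∃ i < n, x ∈ S i} (dbl D r) →
      (∀ T : Set V, (∀ i < n, Disjoint T (S i)) → Agree h h' T) →
      Won (cycleGraph n) (MaxDeg 4) h') :
    Won (cycleGraph n) (MaxDeg 4) h := by
  classical
  have hn0 : 0 < n := by omega
  have hne0 : Nonempty (ι → V) := (hcp 0 hn0).elim fun u _ => ⟨u⟩
  choose! u hu using hcp
  have hdisj : ∀ i < n, ∀ j < n, ∀ x y, u i x = u j y → i = j := by
    intro i hi j hj x y hxy
    by_contra hij
    exact Set.disjoint_left.1 (hS i hi j hj hij) ((hu i hi).mem x) (hxy ▸ (hu j hj).mem y)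
  have hmod : ∀ i, (i + 1) % n < n := fun i => Nat.mod_lt _ hn0
  have hmodne : ∀ i < n, i ≠ (i + 1) % n := by
    intro i hi h2
    rcases Nat.lt_or_ge (i + 1) n with h3 | h3
    · rw [Nat.mod_eq_of_lt h3] at h2
      omega
    · rw [show i + 1 = n by omega, Nat.mod_self] at h2
      omega
  refine cycle_move hn hok (c := c) (fun i => u i r)
    (fun i hi j hj hij => hdisj i hi j hj r r hij) (fun i hi => (hu i hi).deg r) ?_ ?_
  · intro i hi hp
    have h1 := (hu i hi).closed _ ((hu i hi).mem r) _ hp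
    exact Set.disjoint_left.1 (hS i hi _ (hmod i) (hmodne i hi)) h1 ((hu _ (hmod i)).mem r)
  · intro i hi h' hok' hjoin hsub hnew hdg
    -- an edge at a vertex which is not one of the `u j r` is old
    have hold : ∀ (e : Sym2 V) (c' : Bool) (v : V), v ∈ e → (∀ j < n, v ≠ u j r) →
        (e, c') ∈ h' → (e, c') ∈ h := by
      intro e c' v hv hvr he
      rcases hnew _ he with h1 | ⟨j, hj, h1⟩
      · exact h1
      · exfalso
        have h2 : e = s(u j r, u ((j + 1) % n) r) := h1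
        rw [h2, Sym2.mem_iff] at hv
        rcases hv with hv | hv
        · exact hvr j hj hv
        · exact hvr _ (hmod j) hv
    have hur : ∀ k < n, ∀ x : ι, x ≠ r → ∀ j < n, u k x ≠ u j r := by
      intro k hk x hx j hj h1
      have h2 := hdisj k hk j hj x r h1
      subst h2
      exact hx ((hu k hk).inj h1)
    set R : Set V := {x | ∃ i < n, x ∈ S i} with hR
    have hSR : ∀ k < n, S k ⊆ R := fun k hk x hx => ⟨k, hk, hx⟩
    have hmono : ∀ k < n, ∀ x y, x ≠ y → Pth h' c (S k) (D x y) (u k x) (u k y) :=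
      fun k hk x y hxy => ((hu k hk).path x y hxy).mono hsub (le_refl _)
    refine hwin h' hok' ?_ ?_
    · set w : {x : ι // x ≠ r} × Bool → V :=
        fun p => if p.2 = true then u ((i + 1) % n) p.1 else u i p.1 with hw
      have hwt : ∀ x : {x : ι // x ≠ r}, w (x, true) = u ((i + 1) % n) x := fun x => rfl
      have hwf : ∀ x : {x : ι // x ≠ r}, w (x, false) = u i x := fun x => rfl
      refine ⟨w, ?_, ?_, ?_, ?_, ?_, ?_⟩
      · rintro ⟨x, b⟩
        cases b
        · exact hSR i hi ((hu i hi).mem x)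
        · exact hSR _ (hmod i) ((hu _ (hmod i)).mem x)
      · rintro ⟨x, b⟩ ⟨y, b'⟩ hxy
        cases b <;> cases b'
        · rw [hwf, hwf] at hxy
          rw [Subtype.ext ((hu i hi).inj hxy)]
        · rw [hwf, hwt] at hxy
          exact absurd (hdisj i hi _ (hmod i) _ _ hxy) (hmodne i hi)
        · rw [hwt, hwf] at hxy
          exact absurd (hdisj i hi _ (hmod i) _ _ hxy.symm) (hmodne i hi)
        · rw [hwt, hwt] at hxy
          rw [Subtype.ext ((hu _ (hmod i)).inj hxy)]
      · rintro ⟨x, b⟩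
        cases b
        · rw [hwf, hdg _ (hur i hi x x.2)]
          exact (hu i hi).deg x
        · rw [hwt, hdg _ (hur _ (hmod i) x x.2)]
          exact (hu _ (hmod i)).deg x
      · rintro ⟨x, b⟩ ⟨y, b'⟩ hxy
        cases b <;> cases b'
        · rw [hwf, hwf]
          have hne : x.1 ≠ y.1 := fun h1 => hxy (by rw [Subtype.ext h1])
          exact (hmono i hi _ _ hne).mono (fun z hz => hz) (hSR i hi)
        · rw [hwf, hwt]
          have h1 := (hmono i hi _ _ x.2).append (hmono _ (hmod i) _ _ y.2.symm)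
            (hS i hi _ (hmod i) (hmodne i hi)) hjoin
          exact h1.mono (fun z hz => hz) (Set.union_subset (hSR i hi) (hSR _ (hmod i)))
        · rw [hwf, hwt]
          have hj2 : (s(u ((i + 1) % n) r, u i r), c) ∈ h' := by
            rw [Sym2.eq_swap]
            exact hjoin
          have h1 := (hmono _ (hmod i) _ _ x.2).append (hmono i hi _ _ y.2.symm)
            (hS i hi _ (hmod i) (hmodne i hi)).symm hj2
          exact h1.mono (fun z hz => hz) (Set.union_subset (hSR _ (hmod i)) (hSR i hi))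
        · rw [hwt, hwt]
          have hne : x.1 ≠ y.1 := fun h1 => hxy (by rw [Subtype.ext h1])
          exact (hmono _ (hmod i) _ _ hne).mono (fun z hz => hz) (hSR _ (hmod i))
      · rintro ⟨x, b⟩ ⟨y, b'⟩ hxy ⟨c', hc'⟩
        cases b <;> cases b'
        · rw [hwf, hwf] at hc'
          have hne : x.1 ≠ y.1 := fun h1 => hxy (by rw [Subtype.ext h1])
          have h1 := hold _ _ _ (Sym2.mem_mk_left _ _) (hur i hi x x.2) hc'
          exact (hu i hi).adj _ _ hne ⟨c', h1⟩
        · rw [hwf, hwt] at hc'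
          have h1 := hold _ _ _ (Sym2.mem_mk_left _ _) (hur i hi x x.2) hc'
          have h2 := (hu i hi).closed _ ((hu i hi).mem _) _ ⟨c', h1⟩
          exact absurd ((hu _ (hmod i)).mem _)
            (Set.disjoint_left.1 (hS i hi _ (hmod i) (hmodne i hi)) h2)
        · rw [hwf, hwt] at hc'
          have h1 := hold _ _ _ (Sym2.mem_mk_left _ _) (hur _ (hmod i) x x.2) hc'
          have h2 := (hu _ (hmod i)).closed _ ((hu _ (hmod i)).mem _) _ ⟨c', h1⟩
          exact absurd h2
            (Set.disjoint_left.1 (hS i hi _ (hmod i) (hmodne i hi)) ((hu i hi).mem _))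
        · rw [hwt, hwt] at hc'
          have hne : x.1 ≠ y.1 := fun h1 => hxy (by rw [Subtype.ext h1])
          have h1 := hold _ _ _ (Sym2.mem_mk_left _ _) (hur _ (hmod i) x x.2) hc'
          exact (hu _ (hmod i)).adj _ _ hne ⟨c', h1⟩
      · rintro x ⟨k, hk, hx⟩ y ⟨c', hc'⟩
        rcases hnew _ hc' with h1 | ⟨j, hj, h1⟩
        · exact ⟨k, hk, (hu k hk).closed x hx y ⟨c', h1⟩⟩
        · have h2 : s(x, y) = s(u j r, u ((j + 1) % n) r) := h1
          rw [Sym2.eq_iff] at h2
          rcases h2 with ⟨-, rfl⟩ | ⟨-, rfl⟩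
          · exact ⟨_, hmod j, (hu _ (hmod j)).mem r⟩
          · exact ⟨j, hj, (hu j hj).mem r⟩
    · intro T hT
      have hTr : ∀ v ∈ T, ∀ j < n, v ≠ u j r := by
        rintro v hv j hj rfl
        exact Set.disjoint_left.1 (hT j hj) hv ((hu j hj).mem r)
      refine ⟨?_, ?_⟩
      · rintro e c' ⟨v, hv, hve⟩
        exact ⟨fun he => hsub _ he, fun he => hold e c' v hve (hTr v hv) he⟩
      · intro v hv
        exact (hdg v (hTr v hv)).symm

/-- the final move -/
theorem finish_move {n : ℕ} (hn : 3 ≤ n) {h : Hist V} (hok : ∀ v, dg h v ≤ 4) {c : Bool}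
    {S : Set V} {ι : Type} {D : ι → ι → ℕ} (hcp : HasCp h c S D) (f : ℕ → ι)
    (hinj : ∀ i < n, ∀ j < n, f i = f j → i = j)
    (hf : ∀ i < n, D (f i) (f ((i + 1) % n)) = n - 1) : Won (cycleGraph n) (MaxDeg 4) h := by
  obtain ⟨u, hu⟩ := hcp
  have hne : ∀ i < n, f i ≠ f ((i + 1) % n) := by
    intro i hi h1
    have h2 := hinj i hi _ (Nat.mod_lt _ (by omega)) h1
    rcases Nat.lt_or_ge (i + 1) n with h3 | h3
    · rw [Nat.mod_eq_of_lt h3] at h2
      omega
    · rw [show i + 1 = n by omega, Nat.mod_self] at h2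
      omega
  refine cycle_move hn hok (c := c) (fun i => u (f i))
    (fun i hi j hj hij => hinj i hi j hj (hu.inj hij)) (fun i hi => hu.deg _) ?_ ?_
  · intro i hi hp
    have := hu.adj _ _ (hne i hi) hp
    rw [hf i hi] at this
    omega
  · intro i hi h' _ hjoin hsub _ _
    have hp := hu.path _ _ (hne i hi)
    rw [hf i hi] at hp
    exact Won.target (target_of_path hn (hp.mono hsub (le_refl _)) hjoin)

end Pool.Agent.ORam
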