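import Pool.Agent.ORam.Cert

/-!
# The small cases
-/

set_option autoImplicit false

namespace Pool.Agent.ORam

open SimpleGraph

variable {V : Type*}

theorem small_11 (c : Bool) : Wn V 11 c P3 :=
  Wn.chk (by norm_num) [74, 27, 15, 9, 5, 1]
    [6, 12, 42, 24, 78, 84, 80, 168, 26, 44, 14] (by decide +kernel)

theorem small_13 (c : Bool) : Wn V 13 c P3 :=
  Wn.chk (by norm_num) [101, 56, 1, 17, 11, 4, 0]
    [55, 163, 188, 170, 181, 149, 103, 338, 307, 332, 302, 296, 98] (by decide +kernel)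

theorem small_15 (c : Bool) : Wn V 15 c P3 :=
  Wn.chk (by norm_num) [10, 1, 25, 3, 4, 0, 2]
    [7, 133, 129, 178, 159, 135, 106, 9, 303, 231, 255, 274, 225, 229, 295] (by decide +kernel)

theorem small_17 (c : Bool) : Wn V 17 c P3 :=
  Wn.chk (by norm_num) [14, 29, 17, 4, 1, 0]
    [2, 101, 178, 164, 191, 146, 122, 119, 140, 106, 20, 47, 34, 92, 71, 58, 74] (by decide +kernel)

theorem small_19 (c : Bool) : Wn V 19 c P3 :=
  Wn.chk (by norm_num) [45, 0, 12, 3, 5, 1]
    [2, 72, 54, 74, 56, 18, 62, 20, 138, 102, 162, 174, 146, 176, 164, 110, 182, 104,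
    140] (by decide +kernel)

theorem small_21 (c : Bool) : Wn V 21 c P3 :=
  Wn.chk (by norm_num) [86, 10, 22, 11, 1, 0]
    [2, 29, 17, 53, 89, 146, 173, 92, 40, 62, 178, 137, 148, 122, 101, 161, 110, 176,
    140, 184, 76] (by decide +kernel)

theorem small_23 (c : Bool) : Wn V 23 c P3 :=
  Wn.chk (by norm_num) [73, 1, 2, 5, 4, 0]
    [7, 92, 71, 182, 157, 187, 119, 140, 104, 85, 62, 191, 164, 176, 110, 79, 20, 67,
    155, 13, 38, 56, 151] (by decide +kernel)

theorem small_25 (c : Bool) : Wn V 25 c P3 :=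
  Wn.chk (by norm_num) [155, 25, 1, 4, 10, 2, 0]
    [5, 175, 109, 31, 343, 325, 199, 365, 149, 293, 271, 205, 319, 349, 107, 139, 77,
    103, 353, 361, 239, 263, 323, 307, 163] (by decide +kernel)

theorem small_27 (c : Bool) : Wn V 27 c P3 :=
  Wn.chk (by norm_num) [14, 21, 18, 20, 0, 5, 1]
    [2, 297, 339, 315, 195, 51, 27, 9, 290, 342, 326, 344, 234, 318, 350, 198, 62, 30,
    110, 174, 146, 38, 54, 74, 56, 138, 32] (by decide +kernel)

theorem small_29 (c : Bool) : Wn V 29 c P3 :=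
  Wn.chk (by norm_num) [155, 25, 1, 4, 10, 2, 0]
    [7, 115, 43, 79, 17, 127, 187, 359, 373, 299, 229, 215, 341, 328, 247, 233, 295, 211,
    331, 355, 191, 157, 223, 352, 119, 53, 40, 151, 137] (by decide +kernel)

theorem small_31 (c : Bool) : Wn V 31 c P3 :=
  Wn.chk (by norm_num) [14, 21, 18, 20, 0, 5, 1]
    [3, 246, 219, 248, 291, 111, 381, 222, 243, 224, 201, 105, 150, 123, 152, 207, 126,
    147, 128, 93, 254, 363, 230, 345, 366, 261, 368, 237, 158, 57, 78] (by decide +kernel)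

theorem small_33 (c : Bool) : Wn V 33 c P3 :=
  Wn.chk (by norm_num) [149, 25, 1, 7, 8, 4, 0]
    [2, 137, 17, 74, 47, 133, 355, 110, 173, 335, 362, 131, 182, 377, 305, 233, 290, 29,
    187, 301, 359, 218, 101, 13, 71, 122, 161, 317, 350, 115, 331, 157, 119] (by decide +kernel)

theorem small_35 (c : Bool) : Wn V 35 c P3 :=
  Wn.chk (by norm_num) [41, 17, 9, 5, 2, 0, 1]
    [11, 164, 27, 255, 45, 81, 117, 83, 119, 87, 99, 89, 47, 129, 189, 131, 191, 135,
    51, 225, 285, 227, 287, 231, 333, 369, 213, 371, 195, 375, 335, 377, 215, 15, 251] (by decide +kernel)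

theorem small_37 (c : Bool) : Wn V 37 c P3 :=
  Wn.chk (by norm_num) [122, 58, 8, 7, 1, 5, 0]
    [4, 328, 355, 382, 278, 236, 320, 112, 164, 38, 184, 115, 34, 322, 64, 20, 106, 43,
    22, 124, 308, 352, 211, 280, 326, 260, 208, 283, 292, 238, 262, 310, 331, 202, 142,
    166, 187] (by decide +kernel)

theorem small_39 (c : Bool) : Wn V 39 c P3 :=
  Wn.chk (by norm_num) [37, 88, 41, 23, 7, 2, 0]
    [5, 70, 268, 209, 358, 293, 275, 77, 16, 172, 113, 46, 304, 365, 245, 214, 353, 316,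
    256, 181, 347, 221, 154, 61, 325, 125, 160, 28, 65, 277, 52, 118, 10, 323, 203, 130,
    370, 121, 361] (by decide +kernel)

theorem small_41 (c : Bool) : Wn V 41 c P3 :=
  Wn.chk (by norm_num) [58, 52, 0, 1, 6, 3, 2]
    [16, 256, 232, 24, 277, 214, 252, 156, 118, 61, 46, 316, 88, 370, 228, 154, 300, 358,
    325, 304, 376, 349, 130, 235, 175, 286, 205, 168, 372, 70, 37, 264, 109, 136, 268,
    84, 343, 181, 160, 319, 103] (by decide +kernel)

theorem small_43 (c : Bool) : Wn V 43 c P3 :=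
  Wn.chk (by norm_num) [18, 6, 0, 16, 10, 1, 2]
    [12, 316, 207, 126, 183, 196, 84, 33, 279, 222, 111, 261, 366, 327, 150, 354, 273,
    228, 141, 186, 42, 93, 156, 309, 63, 24, 219, 252, 312, 21, 381, 330, 282, 237, 132,
    177, 39, 78, 165, 300, 66, 345, 264] (by decide +kernel)

theorem small_45 (c : Bool) : Wn V 45 c P3 :=
  Wn.chk (by norm_num) [59, 50, 5, 14, 8, 3, 1]
    [23, 239, 107, 264, 209, 41, 282, 113, 78, 311, 156, 125, 66, 365, 300, 167, 372,
    323, 210, 42, 281, 222, 353, 312, 203, 35, 84, 143, 252, 221, 354, 185, 294, 77, 114,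
    275, 228, 383, 150, 329, 366, 65, 24, 263, 126] (by decide +kernel)

theorem small_47 (c : Bool) : Wn V 47 c P3 :=
  Wn.chk (by norm_num) [122, 74, 25, 17, 8, 4, 0]
    [7, 62, 110, 350, 206, 247, 359, 71, 151, 38, 301, 211, 355, 295, 119, 253, 182, 215,
    47, 155, 335, 101, 283, 290, 187, 337, 79, 251, 229, 115, 278, 85, 11, 191, 53, 227,
    146, 331, 242, 127, 193, 287, 299, 373, 13, 326, 67] (by decide +kernel)

theorem small_49 (c : Bool) : Wn V 49 c P3 :=
  Wn.chk (by norm_num) [165, 61, 19, 4, 10, 0, 2]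
    [31, 261, 139, 205, 183, 289, 277, 217, 55, 321, 219, 123, 93, 351, 33, 304, 279,
    343, 232, 243, 121, 379, 177, 319, 271, 57, 376, 207, 181, 199, 73, 37, 145, 235,
    109, 327, 201, 141, 75, 241, 325, 111, 88, 103, 273, 147, 136, 309, 91] (by decide +kernel)

theorem small_51 (c : Bool) : Wn V 51 c P3 :=
  Wn.chk (by norm_num) [177, 33, 34, 22, 3, 0, 2]
    [13, 373, 112, 85, 213, 357, 117, 69, 229, 157, 331, 253, 76, 97, 364, 295, 169, 106,
    79, 244, 328, 148, 220, 247, 313, 151, 223, 346, 127, 58, 25, 337, 124, 49, 40, 352,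
    133, 64, 265, 202, 367, 153, 81, 193, 280, 292, 184, 208, 283, 301, 187] (by decide +kernel)

theorem small_53 (c : Bool) : Wn V 53 c P3 :=
  Wn.chk (by norm_num) [49, 1, 4, 17, 11, 2, 0]
    [7, 76, 262, 223, 301, 382, 58, 25, 115, 178, 247, 220, 310, 43, 64, 352, 331, 22,
    124, 151, 274, 211, 133, 184, 337, 79, 253, 238, 106, 169, 53, 313, 346, 157, 280,
    94, 13, 127, 166, 283, 208, 112, 34, 67, 373, 101, 265, 202, 142, 40, 85, 355, 322] (by decide +kernel)

theorem small_59 (c : Bool) : Wn V 59 c P3 :=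
  Wn.chk (by norm_num) [355, 115, 31, 13, 18, 3, 4, 2]
    [6, 145, 192, 336, 199, 343, 558, 753, 19, 168, 361, 175, 726, 577, 379, 393, 609,
    141, 528, 384, 535, 391, 721, 582, 414, 325, 537, 453, 702, 321, 504, 132, 241, 294,
    57, 165, 259, 121, 697, 312, 513, 633, 486, 433, 708, 222, 517, 624, 672, 24, 679,
    237, 21, 732, 438, 481, 126, 261, 345] (by decide +kernel)

end Pool.Agent.ORam
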