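import Pool.Agent.ORam.Base

/-!
# The start of the game
-/

set_option autoImplicit false

namespace Pool.Agent.ORam

open SimpleGraph

variable {V : Type*} {W : Type*}

theorem dg_eq_zero {h : Hist V} {x : V} (hx : ∀ y, ¬ Pres h s(x, y)) : dg h x = 0 := by
  classical
  unfold dg
  rw [List.length_eq_zero_iff, List.filter_eq_nil_iff]
  rintro ⟨e, c⟩ he hxe
  have hxe' : x ∈ e := by simpa using hxe
  obtain ⟨y, rfl⟩ := Sym2.mem_iff_exists.1 hxe'
  exact hx y ⟨c, he⟩

theorem block_move {G : SimpleGraph W} {h : Hist V} (hok : ∀ v, dg h v ≤ 4) {F : Set V}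
    (hF : ∀ x ∈ F, ∀ y, ¬ Pres h s(x, y)) (p : ℕ → V)
    (hp : ∀ i < 7, ∀ j < 7, p i = p j → i = j) (hm : ∀ i < 7, p i ∈ F)
    (hwin : ∀ h', (∀ v, dg h' v ≤ 4) → (∃ c, HasCp h' c F P3) →
      (∀ T, Disjoint T F → Agree h h' T) → Won G (MaxDeg 4) h') : Won G (MaxDeg 4) h := by
  have d0 : ∀ i < 7, dg h (p i) = 0 := fun i hi => dg_eq_zero (hF _ (hm i hi))
  have hne : ∀ i < 7, ∀ j < 7, i ≠ j → p i ≠ p j := fun i hi j hj hij he => hij (hp i hi j hj he)
  have hnm : ∀ i < 7, ∀ j < 7, ∀ k < 7, i ≠ j → i ≠ k → p i ∉ s(p j, p k) := by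
    intro i hi j hj k hk hij hik he
    rw [Sym2.mem_iff] at he
    rcases he with he | he
    · exact hne i hi j hj hij he
    · exact hne i hi k hk hik he
  have hnp : ∀ (h' : Hist V) (x y : V), dg h' x = 0 → ¬ Pres h' s(x, y) := by
    intro h' x y hx hpr
    have := dg_pos hpr
    omega
  have hcl0 : Closed h F := fun x hx y hpr => absurd hpr (hF x hx y)
  have hagc : ∀ (h' : Hist V) (i j : ℕ), i < 7 → j < 7 → ∀ c T, Disjoint T F →
      Agree h' ((s(p i, p j), c) :: h') T := fun h' i j hi hj c T hT =>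
    agree_cons (Set.disjoint_right.1 hT (hm i hi)) (Set.disjoint_right.1 hT (hm j hj)) c
  -- the first edge
  refine draw hok (hne 0 (by norm_num) 1 (by norm_num) (by norm_num)) (hnp h _ _ (d0 0 (by norm_num)))
    (by rw [d0 0 (by norm_num)]; norm_num) (by rw [d0 1 (by norm_num)]; norm_num) ?_
  intro c1 hok1
  set h1 : Hist V := (s(p 0, p 1), c1) :: h with hh1
  have d1 : ∀ i < 7, 1 < i → dg h1 (p i) = 0 := by
    intro i hi h1i
    rw [hh1, dg_cons_of_notMem (hnm i hi 0 (by norm_num) 1 (by norm_num) (by omega) (by omega)),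
      d0 i hi]
  have i1 : Iso1 h1 c1 (p 0) (p 1) := Iso1.new (d0 0 (by norm_num)) (d0 1 (by norm_num)) c1
  have hcl1 : Closed h1 F := hcl0.cons (hm 0 (by norm_num)) (hm 1 (by norm_num)) c1
  -- the second edge
  refine draw hok1 (hne 2 (by norm_num) 3 (by norm_num) (by norm_num))
    (hnp h1 _ _ (d1 2 (by norm_num) (by norm_num)))
    (by rw [d1 2 (by norm_num) (by norm_num)]; norm_num)
    (by rw [d1 3 (by norm_num) (by norm_num)]; norm_num) ?_
  intro c2 hok2
  set h2 : Hist V := (s(p 2, p 3), c2) :: h1 with hh2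
  have d2 : ∀ i < 7, 3 < i → dg h2 (p i) = 0 := by
    intro i hi h1i
    rw [hh2, dg_cons_of_notMem (hnm i hi 2 (by norm_num) 3 (by norm_num) (by omega) (by omega)),
      d1 i hi (by omega)]
  have i1' : Iso1 h2 c1 (p 0) (p 1) :=
    i1.cons (hnm 0 (by norm_num) 2 (by norm_num) 3 (by norm_num) (by norm_num) (by norm_num))
      (hnm 1 (by norm_num) 2 (by norm_num) 3 (by norm_num) (by norm_num) (by norm_num)) c2
  have i2 : Iso1 h2 c2 (p 2) (p 3) :=
    Iso1.new (d1 2 (by norm_num) (by norm_num)) (d1 3 (by norm_num) (by norm_num)) c2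
  have hcl2 : Closed h2 F := hcl1.cons (hm 2 (by norm_num)) (hm 3 (by norm_num)) c2
  -- the third edge
  refine draw hok2 (hne 4 (by norm_num) 5 (by norm_num) (by norm_num))
    (hnp h2 _ _ (d2 4 (by norm_num) (by norm_num)))
    (by rw [d2 4 (by norm_num) (by norm_num)]; norm_num)
    (by rw [d2 5 (by norm_num) (by norm_num)]; norm_num) ?_
  intro c3 hok3
  set h3 : Hist V := (s(p 4, p 5), c3) :: h2 with hh3
  have d3 : dg h3 (p 6) = 0 := by
    rw [hh3, dg_cons_of_notMem (hnm 6 (by norm_num) 4 (by norm_num) 5 (by norm_num) (by omega)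
      (by omega)), d2 6 (by norm_num) (by norm_num)]
  have i1'' : Iso1 h3 c1 (p 0) (p 1) :=
    i1'.cons (hnm 0 (by norm_num) 4 (by norm_num) 5 (by norm_num) (by norm_num) (by norm_num))
      (hnm 1 (by norm_num) 4 (by norm_num) 5 (by norm_num) (by norm_num) (by norm_num)) c3
  have i2' : Iso1 h3 c2 (p 2) (p 3) :=
    i2.cons (hnm 2 (by norm_num) 4 (by norm_num) 5 (by norm_num) (by norm_num) (by norm_num))
      (hnm 3 (by norm_num) 4 (by norm_num) 5 (by norm_num) (by norm_num) (by norm_num)) c3
  have i3 : Iso1 h3 c3 (p 4) (p 5) :=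
    Iso1.new (d2 4 (by norm_num) (by norm_num)) (d2 5 (by norm_num) (by norm_num)) c3
  have hcl3 : Closed h3 F := hcl2.cons (hm 4 (by norm_num)) (hm 5 (by norm_num)) c3
  have hag3 : ∀ T, Disjoint T F → Agree h h3 T := fun T hT =>
    ((hagc h 0 1 (by norm_num) (by norm_num) c1 T hT).trans
      (hagc h1 2 3 (by norm_num) (by norm_num) c2 T hT)).trans
      (hagc h2 4 5 (by norm_num) (by norm_num) c3 T hT)
  have hwin3 : ∀ h', (∀ v, dg h' v ≤ 4) → (∃ c, HasCp h' c F P3) →
      (∀ T, Disjoint T F → Agree h3 h' T) → Won G (MaxDeg 4) h' := fun h' hok' hc hag =>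
    hwin h' hok' hc fun T hT => (hag3 T hT).trans (hag T hT)
  by_cases h12 : c1 = c2
  · subst h12
    exact block_two hok3 hcl3 i1'' i2' d3 (hm 0 (by norm_num)) (hm 1 (by norm_num))
      (hm 2 (by norm_num)) (hm 3 (by norm_num)) (hm 6 (by norm_num))
      (hne 0 (by norm_num) 1 (by norm_num) (by norm_num))
      (hne 0 (by norm_num) 3 (by norm_num) (by norm_num))
      (hne 0 (by norm_num) 6 (by norm_num) (by norm_num))
      (hne 1 (by norm_num) 3 (by norm_num) (by norm_num))
      (hne 1 (by norm_num) 6 (by norm_num) (by norm_num))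
      (hne 2 (by norm_num) 3 (by norm_num) (by norm_num))
      (hne 2 (by norm_num) 6 (by norm_num) (by norm_num))
      (hne 3 (by norm_num) 6 (by norm_num) (by norm_num)) hwin3
  · by_cases h13 : c1 = c3
    · subst h13
      exact block_two hok3 hcl3 i1'' i3 d3 (hm 0 (by norm_num)) (hm 1 (by norm_num))
        (hm 4 (by norm_num)) (hm 5 (by norm_num)) (hm 6 (by norm_num))
        (hne 0 (by norm_num) 1 (by norm_num) (by norm_num))
        (hne 0 (by norm_num) 5 (by norm_num) (by norm_num))
        (hne 0 (by norm_num) 6 (by norm_num) (by norm_num))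
        (hne 1 (by norm_num) 5 (by norm_num) (by norm_num))
        (hne 1 (by norm_num) 6 (by norm_num) (by norm_num))
        (hne 4 (by norm_num) 5 (by norm_num) (by norm_num))
        (hne 4 (by norm_num) 6 (by norm_num) (by norm_num))
        (hne 5 (by norm_num) 6 (by norm_num) (by norm_num)) hwin3
    · have h23 : c2 = c3 := by
        cases c1 <;> cases c2 <;> cases c3 <;> simp_all
      subst h23
      exact block_two hok3 hcl3 i2' i3 d3 (hm 2 (by norm_num)) (hm 3 (by norm_num))
        (hm 4 (by norm_num)) (hm 5 (by norm_num)) (hm 6 (by norm_num))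
        (hne 2 (by norm_num) 3 (by norm_num) (by norm_num))
        (hne 2 (by norm_num) 5 (by norm_num) (by norm_num))
        (hne 2 (by norm_num) 6 (by norm_num) (by norm_num))
        (hne 3 (by norm_num) 5 (by norm_num) (by norm_num))
        (hne 3 (by norm_num) 6 (by norm_num) (by norm_num))
        (hne 4 (by norm_num) 5 (by norm_num) (by norm_num))
        (hne 4 (by norm_num) 6 (by norm_num) (by norm_num))
        (hne 5 (by norm_num) 6 (by norm_num) (by norm_num)) hwin3

/-- If Builder wins from many blocks of either colour, he wins. -/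
theorem won_nil [Infinite V] {n : ℕ} (hw : ∀ c, Wn V n c P3) :
    Won (cycleGraph n) (MaxDeg 4) ([] : Hist V) := by
  classical
  obtain ⟨N1, hN1⟩ := hw true
  obtain ⟨N2, hN2⟩ := hw false
  let ν : ℕ ↪ V := Infinite.natEmbedding V
  set R : ℕ → Set V := fun g => {x | ∃ j < 7, x = ν (7 * g + j)} with hRdef
  have hR : ∀ g g', g ≠ g' → Disjoint (R g) (R g') := by
    intro g g' hg
    rw [Set.disjoint_left]
    rintro x ⟨j, hj, rfl⟩ ⟨j', hj', he⟩
    have := ν.injective he
    omega
  refine process R hR (N1 + N2) (fun h g => ∀ x ∈ R g, ∀ y, ¬ Pres h s(x, y))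
    (fun h g => ∃ c, HasCp h c (R g) P3) ?_ ?_ ?_ (fun v => by simp [dg_nil]) ?_ ?_
  · intro g h h' ha hq x hx y hp
    exact hq x hx y ((ha.pres hx).2 hp)
  · rintro g h h' ha ⟨c, hc⟩
    exact ⟨c, ha.hasCp hc⟩
  · intro g _ h hok hq hcont
    refine block_move hok hq (fun j => ν (7 * g + j)) ?_ (fun i hi => ⟨i, hi, rfl⟩) ?_
    · intro i _ j _ hij
      have := ν.injective hij
      omega
    · intro h' hok' hc hag
      exact hcont h' hok' hc hag
  · rintro g _ x _ y ⟨c, hc⟩
    exact absurd hc List.not_mem_nil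
  · intro h' hok' hq
    choose! col hcol using hq
    have hmany : ∀ c, Many h' c P3 (((Finset.range (N1 + N2)).filter fun g => col g = c).card) := by
      intro c
      set A := (Finset.range (N1 + N2)).filter fun g => col g = c with hA
      set e := A.orderEmbOfFin rfl with he
      refine ⟨fun i => if hi : i < A.card then R (e ⟨i, hi⟩) else ∅, ?_, ?_⟩
      · intro i j hij
        dsimp only
        split_ifs with hi hj
        · refine hR _ _ fun h1 => hij ?_
          have := e.injective h1
          exact congrArg Fin.val this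
        · exact Set.disjoint_empty _
        · exact Set.empty_disjoint _
        · exact Set.empty_disjoint _
      · intro i hi
        dsimp only
        rw [dif_pos hi]
        have h1 : e ⟨i, hi⟩ ∈ A := Finset.orderEmbOfFin_mem A rfl _
        obtain ⟨h3, h4⟩ := Finset.mem_filter.1 h1
        have h2 := hcol _ (Finset.mem_range.1 h3)
        rw [h4] at h2
        exact h2
    have hsum : ((Finset.range (N1 + N2)).filter fun g => col g = true).card +
        ((Finset.range (N1 + N2)).filter fun g => col g = false).card = N1 + N2 := by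
      have h1 := Finset.card_filter_add_card_filter_not (s := Finset.range (N1 + N2))
        (fun g => col g = true)
      rw [Finset.card_range] at h1
      have h2 : ((Finset.range (N1 + N2)).filter fun g => col g = false) =
          (Finset.range (N1 + N2)).filter fun g => ¬ col g = true :=
        Finset.filter_congr fun g _ => by simp
      rw [h2]
      exact h1
    rcases Nat.lt_or_ge (((Finset.range (N1 + N2)).filter fun g => col g = true).card) N1 with
      h1 | h1
    · exact hN2 h' hok' ((hmany false).le (by omega))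
    · exact hN1 h' hok' ((hmany true).le h1)

theorem builderWins_of_Wn [Infinite V] {n : ℕ} (hw : ∀ c, Wn V n c P3) :
    BuilderWins (cycleGraph n) (MaxDeg 4 : SimpleGraph V → Prop) :=
  builderWins_of_won (won_nil hw)

end Pool.Agent.ORam
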