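import Pool.Agent.ORam.Start

/-!
# Patterns on a line: the uniform construction
-/

set_option autoImplicit false

namespace Pool.Agent.ORam

open SimpleGraph

/-- `D x y` is the distance of the positions, except for pairs on the same side -/
def Cat {ι : Type} (D : ι → ι → ℕ) (pos side : ι → ℤ) : Prop :=
  ∀ x y, x ≠ y → ¬ (side x = side y ∧ side x ≠ 0) → (D x y : ℤ) = |pos x - pos y|

/-- Builder wins from many copies of every pattern with the given profile -/
def WC (V : Type*) (n : ℕ) (c : Bool) {ι : Type} (pos side : ι → ℤ) : Prop :=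
  ∀ D : ι → ι → ℕ, Cat D pos side → Wn V n c D

variable {V : Type*} {n : ℕ} {c : Bool}

theorem WC.pull {ι κ : Type} {pos side : ι → ℤ} (f : κ → ι) (hf : Function.Injective f)
    {pos' side' : κ → ℤ} (hp : ∀ x, pos (f x) = pos' x) (hs : ∀ x, side (f x) = side' x)
    (hw : WC V n c pos' side') : WC V n c pos side := by
  intro D hD
  refine Wn.pull f hf (hw _ ?_)
  intro x y hxy hs'
  rw [← hs, ← hs] at hs'
  rw [← hp, ← hp]
  exact hD _ _ (hf.ne hxy) hs'

theorem WC.mirror {ι : Type} {pos side : ι → ℤ}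
    (hw : WC V n c (fun x => - pos x) (fun x => - side x)) : WC V n c pos side := by
  intro D hD
  refine hw D ?_
  intro x y hxy hs
  rw [hD x y hxy (fun h => hs ⟨by show - side x = - side y; rw [h.1],
    fun h0 => h.2 (neg_eq_zero.1 h0)⟩),
    ← abs_neg (pos x - pos y)]
  congr 1
  ring

theorem WC.weaken {ι : Type} {pos side : ι → ℤ} (hw : WC V n c pos side) :
    WC V n c pos (fun _ => 0) :=
  fun D hD => hw D fun x y hxy _ => hD x y hxy fun h => h.2 rfl

/-- doubling at the point `a` between the right side and the rest -/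
theorem WC.step (hn : 3 ≤ n) {ι : Type} {pos side : ι → ℤ} (a : ι) (ha : side a = 0)
    (h1 : ∀ x, side x ≠ 1 → pos x ≤ pos a) (h2 : ∀ x, side x = 1 → pos a ≤ pos x)
    (hw : WC V n c (ι := {x : ι // x ≠ a} ⊕ {x : ι // side x = 1})
      (Sum.elim (fun x => pos x.1) (fun x => pos x.1 + 1))
      (Sum.elim (fun x => side x.1) (fun _ => 1))) : WC V n c pos side := by
  intro D hD
  refine Wn.double hn a ?_
  have hne : ∀ x : ι, side x = 1 → x ≠ a := by
    rintro x hx rfl
    rw [ha] at hx
    exact absurd hx (by norm_num)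
  let f : {x : ι // x ≠ a} ⊕ {x : ι // side x = 1} → {x : ι // x ≠ a} × Bool :=
    Sum.elim (fun x => (x, false)) (fun x => (⟨x.1, hne x.1 x.2⟩, true))
  refine Wn.pull f ?_ (hw _ ?_)
  · rintro (x | x) (y | y) hxy
    · exact congrArg Sum.inl (congrArg Prod.fst hxy)
    · exact absurd (congrArg Prod.snd hxy) (by simp [f])
    · exact absurd (congrArg Prod.snd hxy) (by simp [f])
    · exact congrArg Sum.inr (Subtype.ext (congrArg (fun p => p.1.1) hxy))
  · have hcross : ∀ x y : ι, x ≠ a → side x ≠ 1 → side y = 1 →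
        ((D x a + 1 + D a y : ℕ) : ℤ) = pos y + 1 - pos x ∧
        ((D y a + 1 + D a x : ℕ) : ℤ) = pos y + 1 - pos x := by
      intro x y hxa hx hy
      have e1 := hD x a hxa (fun h => h.2 (by rw [h.1, ha]))
      have e2 := hD a y (hne y hy).symm (fun h => h.2 ha)
      have e3 := hD a x hxa.symm (fun h => h.2 ha)
      have e4 := hD y a (hne y hy) (fun h => h.2 (by rw [h.1, ha]))
      have l1 := h1 x hx
      have l2 := h2 y hy
      rw [abs_of_nonpos (by linarith)] at e1
      rw [abs_of_nonpos (by linarith)] at e2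
      rw [abs_of_nonneg (by linarith)] at e3
      rw [abs_of_nonneg (by linarith)] at e4
      push_cast
      rw [e1, e2, e3, e4]
      constructor <;> ring
    rintro (x | x) (y | y) hxy hs
    · show (D x.1 y.1 : ℤ) = |pos x.1 - pos y.1|
      exact hD _ _ (fun h => hxy (congrArg Sum.inl (Subtype.ext h))) hs
    · have hx1 : side x.1 ≠ 1 := fun h => hs ⟨h, by
        show side x.1 ≠ 0
        rw [h]; norm_num⟩
      show ((D x.1 a + 1 + D a y.1 : ℕ) : ℤ) = |pos x.1 - (pos y.1 + 1)|
      rw [(hcross x.1 y.1 x.2 hx1 y.2).1, abs_of_nonpos]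
      · ring
      · have l1 := h1 x.1 hx1
        have l2 := h2 y.1 y.2
        linarith
    · have hy1 : side y.1 ≠ 1 := fun h => hs ⟨h.symm, by
        show (1 : ℤ) ≠ 0
        norm_num⟩
      show ((D x.1 a + 1 + D a y.1 : ℕ) : ℤ) = |(pos x.1 + 1) - pos y.1|
      rw [(hcross y.1 x.1 y.2 hy1 x.2).2, abs_of_nonneg]
      have l1 := h1 y.1 hy1
      have l2 := h2 x.1 x.2
      linarith
    · exact absurd ⟨rfl, one_ne_zero⟩ hs

/-- the number of `true` values -/
def tr {r : ℕ} (s : Fin r → Bool) : ℤ := ∑ i, if s i = true then 1 else 0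

/-- doubling at all points of a chain, the farthest first -/
theorem WC.right (hn : 3 ≤ n) {E : Type} (pE sE : E → ℤ) (hE : ∀ e, sE e ≠ 1) (r : ℕ) :
    ∀ {B : Type} (pB : B → ℤ) (q : Fin r → ℤ), Monotone q → (∀ e i, pE e ≤ q i) →
      (∀ i b, q i ≤ pB b) →
      WC V n c (ι := E ⊕ (B × (Fin r → Bool))) (Sum.elim pE (fun p => pB p.1 + tr p.2))
        (Sum.elim sE (fun _ => 1)) →
      WC V n c (ι := E ⊕ (Fin r ⊕ B)) (Sum.elim pE (Sum.elim q pB))
        (Sum.elim sE (Sum.elim (fun _ => 0) (fun _ => 1))) := by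
  induction r with
  | zero =>
    intro B pB q _ _ _ hw
    refine WC.pull (κ := E ⊕ (B × (Fin 0 → Bool)))
      (Sum.elim (fun e => Sum.inl e) (fun p => Sum.inr (Sum.inr p.1))) ?_ ?_ ?_ hw
    · rintro (x | x) (y | y) hxy
      · exact congrArg Sum.inl (Sum.inl_injective hxy)
      · exact absurd hxy (by simp)
      · exact absurd hxy (by simp)
      · have h1 : x.1 = y.1 := Sum.inr_injective (Sum.inr_injective hxy)
        exact congrArg Sum.inr (Prod.ext h1 (Subsingleton.elim _ _))
    · rintro (x | x)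
      · rfl
      · simp [tr]
    · rintro (x | x) <;> rfl
  | succ r ih =>
    intro B pB q hq hEq hqB hw
    refine WC.step hn (Sum.inr (Sum.inl (Fin.last r))) rfl ?_ ?_ ?_
    · rintro (x | x | x) hx
      · exact hEq x _
      · exact hq (Fin.le_last x)
      · exact absurd rfl hx
    · rintro (x | x | x) hx
      · exact absurd hx (hE x)
      · exact absurd hx (by norm_num)
      · exact hqB _ x
    · -- rename the index set
      have hih := ih (B := B × Bool) (fun p => pB p.1 + if p.2 = true then 1 else 0)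
        (fun i => q i.castSucc) (fun i j hij => hq (Fin.castSucc_le_castSucc_iff.2 hij))
        (fun e i => hEq e _) (fun i b => by
          have := hqB i.castSucc b.1
          split_ifs <;> linarith) (by
          refine WC.pull (κ := E ⊕ (B × (Fin (r + 1) → Bool)))
            (Sum.elim (fun e => Sum.inl e)
              (fun p => Sum.inr ((p.1, p.2 0), fun i => p.2 i.succ))) ?_ ?_ ?_ hw
          · rintro (x | x) (y | y) hxy
            · exact congrArg Sum.inl (Sum.inl_injective hxy)
            · exact absurd hxy (by simp)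
            · exact absurd hxy (by simp)
            · have h0 := Sum.inr_injective hxy
              have h1 : x.1 = y.1 := congrArg (fun p => p.1.1) h0
              have h2 : x.2 0 = y.2 0 := congrArg (fun p => p.1.2) h0
              have h3 : (fun i : Fin r => x.2 i.succ) = fun i => y.2 i.succ :=
                congrArg Prod.snd h0
              refine congrArg Sum.inr (Prod.ext h1 ?_)
              funext i
              refine Fin.cases h2 (fun j => ?_) i
              exact congrFun h3 j
          · rintro (x | x)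
            · rfl
            · show pB x.1 + (if x.2 0 = true then 1 else 0) + tr (fun i => x.2 i.succ) =
                pB x.1 + tr x.2
              unfold tr
              rw [Fin.sum_univ_succ, add_assoc]
          · rintro (x | x) <;> rfl)
      refine WC.pull (κ := E ⊕ (Fin r ⊕ (B × Bool)))
        (Sum.elim (fun e => Sum.inl ⟨Sum.inl e, by simp⟩)
          (Sum.elim (fun i => Sum.inl ⟨Sum.inr (Sum.inl i.castSucc), by
              intro h
              have h1 : i.castSucc = Fin.last r := Sum.inl_injective (Sum.inr_injective h)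
              exact absurd h1 (Fin.castSucc_lt_last i).ne⟩)
            (fun p => if p.2 = true then Sum.inr ⟨Sum.inr (Sum.inr p.1), rfl⟩
              else Sum.inl ⟨Sum.inr (Sum.inr p.1), by simp⟩))) ?_ ?_ ?_ hih
      · rintro (x | x | ⟨x, b⟩) (y | y | ⟨y, b'⟩) hxy
        · have h1 := Subtype.ext_iff.1 (Sum.inl_injective hxy)
          exact congrArg Sum.inl (Sum.inl_injective h1)
        · have h1 := Subtype.ext_iff.1 (Sum.inl_injective hxy)
          exact absurd h1 (by simp)
        · cases b'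
          · have h1 := Subtype.ext_iff.1 (Sum.inl_injective hxy)
            exact absurd h1 (by simp)
          · exact absurd hxy (by simp)
        · have h1 := Subtype.ext_iff.1 (Sum.inl_injective hxy)
          exact absurd h1 (by simp)
        · have h1 := Subtype.ext_iff.1 (Sum.inl_injective hxy)
          have h2 := Sum.inl_injective (Sum.inr_injective h1)
          rw [Fin.castSucc_injective _ h2]
        · cases b'
          · have h1 := Subtype.ext_iff.1 (Sum.inl_injective hxy)
            exact absurd h1 (by simp)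
          · exact absurd hxy (by simp)
        · cases b
          · have h1 := Subtype.ext_iff.1 (Sum.inl_injective hxy)
            exact absurd h1 (by simp)
          · exact absurd hxy (by simp)
        · cases b
          · have h1 := Subtype.ext_iff.1 (Sum.inl_injective hxy)
            exact absurd h1 (by simp)
          · exact absurd hxy (by simp)
        · cases b <;> cases b'
          · have h1 := Subtype.ext_iff.1 (Sum.inl_injective hxy)
            have h2 : x = y := Sum.inr_injective (Sum.inr_injective h1)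
            rw [h2]
          · exact absurd hxy (by simp)
          · exact absurd hxy (by simp)
          · have h1 := Subtype.ext_iff.1 (Sum.inr_injective hxy)
            have h2 : x = y := Sum.inr_injective (Sum.inr_injective h1)
            rw [h2]
      · rintro (x | x | ⟨x, b⟩)
        · rfl
        · rfl
        · cases b
          · show pB x = pB x + (if false = true then 1 else 0)
            simp
          · rfl
      · rintro (x | x | ⟨x, b⟩)
        · rfl
        · rfl
        · cases b <;> rfl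

/-- the last doubling at `w` and the closed sequence -/
theorem WC.final {h : ℕ} (hh : 1 ≤ h) (hn : n = 2 * h + 1) {R L : Type} (pR : R → ℤ)
    (pL : L → ℤ) (fR : ℕ → R) (fL : ℕ → L) (z : R)
    (iR : ∀ i < h, ∀ j < h, fR i = fR j → i = j) (iL : ∀ i < h, ∀ j < h, fL i = fL j → i = j)
    (hR : ∀ i < h, pR (fR i) = h) (hL : ∀ i < h, pL (fL i) = -h) (hz : pR z = h - 1) :
    WC V n c (ι := (Unit ⊕ R) ⊕ L) (Sum.elim (Sum.elim (fun _ => 0) pR) pL)
      (Sum.elim (Sum.elim (fun _ => 0) (fun _ => 1)) (fun _ => -1)) := by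
  intro D hD
  have hn3 : 3 ≤ n := by omega
  refine Wn.double hn3 (Sum.inl (Sum.inl ())) ?_
  let ρ : R → {x : (Unit ⊕ R) ⊕ L // x ≠ Sum.inl (Sum.inl ())} :=
    fun x => ⟨Sum.inl (Sum.inr x), by simp⟩
  let lam : L → {x : (Unit ⊕ R) ⊕ L // x ≠ Sum.inl (Sum.inl ())} :=
    fun x => ⟨Sum.inr x, by simp⟩
  have hρ : ∀ x y, ρ x = ρ y → x = y := fun x y hxy =>
    Sum.inr_injective (Sum.inl_injective (Subtype.ext_iff.1 hxy))
  have hlam : ∀ x y, lam x = lam y → x = y := fun x y hxy =>
    Sum.inr_injective (Subtype.ext_iff.1 hxy)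
  have hρl : ∀ x y, ρ x ≠ lam y := fun x y hxy => by
    have := Subtype.ext_iff.1 hxy
    exact absurd this (by simp [ρ, lam])
  have dRL : ∀ i < h, ∀ j < h, D (ρ (fR i)).1 (lam (fL j)).1 = 2 * h ∧
      D (lam (fL j)).1 (ρ (fR i)).1 = 2 * h := by
    intro i hi j hj
    have e1 := hD (ρ (fR i)).1 (lam (fL j)).1 (fun h1 => hρl _ _ (Subtype.ext h1))
      (fun h1 => absurd h1.1 (by simp [ρ, lam]))
    have e2 := hD (lam (fL j)).1 (ρ (fR i)).1 (fun h1 => hρl _ _ (Subtype.ext h1.symm))
      (fun h1 => absurd h1.1 (by simp [ρ, lam]))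
    have e3 : (Sum.elim (Sum.elim (fun _ => 0) pR) pL (ρ (fR i)).1 : ℤ) = h := hR i hi
    have e4 : (Sum.elim (Sum.elim (fun _ => 0) pR) pL (lam (fL j)).1 : ℤ) = -h := hL j hj
    rw [e3, e4] at e1
    rw [e3, e4] at e2
    constructor
    · rw [abs_of_nonneg (by omega)] at e1
      omega
    · rw [abs_of_nonpos (by omega)] at e2
      omega
  have dz : D (ρ z).1 (Sum.inl (Sum.inl ())) = h - 1 := by
    have e1 := hD (ρ z).1 (Sum.inl (Sum.inl ())) (ρ z).2 (fun h1 => absurd h1.1 (by simp [ρ]))
    have e3 : (Sum.elim (Sum.elim (fun _ => 0) pR) pL (ρ z).1 : ℤ) = h - 1 := hz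
    have e4 : (Sum.elim (Sum.elim (fun _ => 0) pR) pL
      (Sum.inl (Sum.inl ()) : (Unit ⊕ R) ⊕ L) : ℤ) = 0 := rfl
    rw [e3, e4, abs_of_nonneg (by omega)] at e1
    omega
  have dz' : D (Sum.inl (Sum.inl ())) (ρ z).1 = h - 1 := by
    have e1 := hD (Sum.inl (Sum.inl ())) (ρ z).1 (ρ z).2.symm
      (fun h1 => absurd h1.1 (by simp [ρ]))
    have e3 : (Sum.elim (Sum.elim (fun _ => 0) pR) pL (ρ z).1 : ℤ) = h - 1 := hz
    have e4 : (Sum.elim (Sum.elim (fun _ => 0) pR) pL
      (Sum.inl (Sum.inl ()) : (Unit ⊕ R) ⊕ L) : ℤ) = 0 := rfl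
    rw [e3, e4, abs_of_nonpos (by omega)] at e1
    omega
  have dR : ∀ i < h, D (Sum.inl (Sum.inl ())) (ρ (fR i)).1 = h := by
    intro i hi
    have e1 := hD (Sum.inl (Sum.inl ())) (ρ (fR i)).1 (ρ (fR i)).2.symm
      (fun h1 => absurd h1.1 (by simp [ρ]))
    have e3 : (Sum.elim (Sum.elim (fun _ => 0) pR) pL (ρ (fR i)).1 : ℤ) = h := hR i hi
    have e4 : (Sum.elim (Sum.elim (fun _ => 0) pR) pL
      (Sum.inl (Sum.inl ()) : (Unit ⊕ R) ⊕ L) : ℤ) = 0 := rfl
    rw [e3, e4, abs_of_nonpos (by omega)] at e1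
    omega
  have dL : ∀ i < h, D (lam (fL i)).1 (Sum.inl (Sum.inl ())) = h := by
    intro i hi
    have e1 := hD (lam (fL i)).1 (Sum.inl (Sum.inl ())) (lam (fL i)).2
      (fun h1 => absurd h1.1 (by simp [lam]))
    have e3 : (Sum.elim (Sum.elim (fun _ => 0) pR) pL (lam (fL i)).1 : ℤ) = -h := hL i hi
    have e4 : (Sum.elim (Sum.elim (fun _ => 0) pR) pL
      (Sum.inl (Sum.inl ()) : (Unit ⊕ R) ⊕ L) : ℤ) = 0 := rfl
    rw [e3, e4, abs_of_nonpos (by omega)] at e1
    omega
  let f : ℕ → {x : (Unit ⊕ R) ⊕ L // x ≠ Sum.inl (Sum.inl ())} × Bool := fun i =>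
    if i = 2 * h then (ρ z, true)
    else if i % 2 = 0 then (ρ (fR (i / 2)), false) else (lam (fL (i / 2)), false)
  have f1 : f (2 * h) = (ρ z, true) := if_pos rfl
  have f2 : ∀ i, i < h → f (2 * i) = (ρ (fR i), false) := by
    intro i hi
    have h1 : ¬ 2 * i = 2 * h := by omega
    have h2 : 2 * i % 2 = 0 := by omega
    have h3 : 2 * i / 2 = i := by omega
    show (if 2 * i = 2 * h then (ρ z, true) else if 2 * i % 2 = 0 then
      (ρ (fR (2 * i / 2)), false) else (lam (fL (2 * i / 2)), false)) = _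
    rw [if_neg h1, if_pos h2, h3]
  have f3 : ∀ i, i < h → f (2 * i + 1) = (lam (fL i), false) := by
    intro i hi
    have h1 : ¬ 2 * i + 1 = 2 * h := by omega
    have h2 : ¬ (2 * i + 1) % 2 = 0 := by omega
    have h3 : (2 * i + 1) / 2 = i := by omega
    show (if 2 * i + 1 = 2 * h then (ρ z, true) else if (2 * i + 1) % 2 = 0 then
      (ρ (fR ((2 * i + 1) / 2)), false) else (lam (fL ((2 * i + 1) / 2)), false)) = _
    rw [if_neg h1, if_neg h2, h3]
  have hcases : ∀ i < n, i = 2 * h ∨ (∃ j < h, i = 2 * j) ∨ ∃ j < h, i = 2 * j + 1 := by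
    intro i hi
    rcases Nat.even_or_odd' i with ⟨j, rfl | rfl⟩
    · rcases Nat.lt_or_ge j h with h1 | h1
      · exact Or.inr (Or.inl ⟨j, h1, rfl⟩)
      · left; omega
    · exact Or.inr (Or.inr ⟨j, by omega, rfl⟩)
  refine Wn.finish hn3 f ?_ ?_
  · intro i hi j hj hij
    rcases hcases i hi with rfl | ⟨i, hi', rfl⟩ | ⟨i, hi', rfl⟩ <;>
      rcases hcases j hj with rfl | ⟨j, hj', rfl⟩ | ⟨j, hj', rfl⟩
    · rfl
    · rw [f1, f2 j hj'] at hij
      exact absurd (congrArg Prod.snd hij) (by simp)
    · rw [f1, f3 j hj'] at hij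
      exact absurd (congrArg Prod.snd hij) (by simp)
    · rw [f1, f2 i hi'] at hij
      exact absurd (congrArg Prod.snd hij) (by simp)
    · rw [f2 i hi', f2 j hj'] at hij
      rw [iR i hi' j hj' (hρ _ _ (congrArg Prod.fst hij))]
    · rw [f2 i hi', f3 j hj'] at hij
      exact absurd (congrArg Prod.fst hij) (hρl _ _)
    · rw [f1, f3 i hi'] at hij
      exact absurd (congrArg Prod.snd hij) (by simp)
    · rw [f3 i hi', f2 j hj'] at hij
      exact absurd (congrArg Prod.fst hij).symm (hρl _ _)
    · rw [f3 i hi', f3 j hj'] at hij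
      rw [iL i hi' j hj' (hlam _ _ (congrArg Prod.fst hij))]
  · intro i hi
    rcases hcases i hi with rfl | ⟨i, hi', rfl⟩ | ⟨i, hi', rfl⟩
    · rw [show (2 * h + 1) % n = 2 * 0 by rw [← hn, Nat.mod_self], f1, f2 0 (by omega)]
      show D (ρ z).1 (Sum.inl (Sum.inl ())) + 1 + D (Sum.inl (Sum.inl ())) (ρ (fR 0)).1 = n - 1
      rw [dz, dR 0 (by omega)]
      omega
    · rw [Nat.mod_eq_of_lt (by omega : 2 * i + 1 < n), f2 i hi', f3 i hi']
      show D (ρ (fR i)).1 (lam (fL i)).1 = n - 1
      rw [(dRL i hi' i hi').1]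
      omega
    · rw [Nat.mod_eq_of_lt (by omega : 2 * i + 1 + 1 < n), f3 i hi']
      rcases Nat.lt_or_ge (i + 1) h with h1 | h1
      · rw [show 2 * i + 1 + 1 = 2 * (i + 1) by ring, f2 (i + 1) h1]
        show D (lam (fL i)).1 (ρ (fR (i + 1))).1 = n - 1
        rw [(dRL (i + 1) h1 i hi').2]
        omega
      · rw [show 2 * i + 1 + 1 = 2 * h by omega, f1]
        show D (lam (fL i)).1 (Sum.inl (Sum.inl ())) + 1 + D (Sum.inl (Sum.inl ())) (ρ z).1 = n - 1
        rw [dL i hi', dz']
        omega

end Pool.Agent.ORam
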